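import Pool.Agent.NH79.Tad.Sol

/-! The algebraic identities behind the families of matrices without the SSP. -/

set_option autoImplicit false

open Polynomial

namespace Pool.Agent.NH79.Tad

/-- background data: `n + 1`-periodic coefficients, the two solutions `R`, `t` given at the right
end `h`, the numbers `r, e` -/
structure Data (n h : ℕ) (β γ : ℕ → ℝ) (r e : ℝ) (R t : ℕ → ℝ[X]) : Prop where
  hγ : ∀ j, γ j ≠ 0
  pβ : ∀ j, β (j + (n + 1)) = β j
  pγ : ∀ j, γ (j + (n + 1)) = γ j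
  solR : Sol β γ R
  solt : Sol β γ t
  Rh : R h = 1
  Rh1 : C (γ h) * R (h + 1) = C r
  th : t h = C e
  th1 : C (γ h) * t (h + 1) = -1
  ne : 1 + r * e ≠ 0

section
variable {n h : ℕ} {β γ : ℕ → ℝ} {r e : ℝ} {R t : ℕ → ℝ[X]}

/-- the polynomial `Q` -/
noncomputable def QQ (n h : ℕ) (γ : ℕ → ℝ) (r e : ℝ) (R : ℕ → ℝ[X]) : ℝ[X] :=
  C (1 + r * e)⁻¹ * (R (h + (n + 1)) + C e * (C (γ h) * R (h + 1 + (n + 1))))

/-- the polynomial `H` -/
noncomputable def HH (n h : ℕ) (γ : ℕ → ℝ) (r e : ℝ) (R : ℕ → ℝ[X]) : ℝ[X] :=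
  C r * QQ n h γ r e R - C (γ h) * R (h + 1 + (n + 1))

theorem Data.star (D : Data n h β γ r e R t) (j : ℕ) :
    R (j + (n + 1)) = HH n h γ r e R * t j + QQ n h γ r e R * R j := by
  have h1 : Sol β γ (fun j => R (j + (n + 1))) := D.solR.shift D.pβ D.pγ
  have h2 := D.solt.comb D.solR (HH n h γ r e R) (QQ n h γ r e R)
  have hC : C (1 + r * e)⁻¹ * (1 + C r * C e) = (1 : ℝ[X]) := by
    rw [show (1 + C r * C e : ℝ[X]) = C (1 + r * e) by simp, ← C_mul, inv_mul_cancel₀ D.ne, C_1]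
  refine h1.unique D.hγ h2 (k := h) ?_ ?_ j
  · rw [D.th, D.Rh, HH, QQ]
    linear_combination -(R (h + (n + 1)) + C e * (C (γ h) * R (h + 1 + (n + 1)))) * hC
  · have h3 : C (γ h) * (HH n h γ r e R * t (h + 1) + QQ n h γ r e R * R (h + 1)) =
        C (γ h) * R (h + 1 + (n + 1)) := by
      rw [show C (γ h) * (HH n h γ r e R * t (h + 1) + QQ n h γ r e R * R (h + 1)) =
        HH n h γ r e R * (C (γ h) * t (h + 1)) + QQ n h γ r e R * (C (γ h) * R (h + 1)) by ring,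
        D.Rh1, D.th1, HH]
      ring
    have h4 : (C (γ h) : ℝ[X]) ≠ 0 := by
      rw [Ne, C_eq_zero]; exact D.hγ h
    exact (mul_left_cancel₀ h4 h3).symm

/-- the solution vanishing at `0` -/
noncomputable def ss (β γ : ℕ → ℝ) : ℕ → ℝ[X] := fwd β γ 0 1

/-- the left solution -/
noncomputable def ff (n h : ℕ) (β γ : ℕ → ℝ) (r e : ℝ) (R : ℕ → ℝ[X]) (j : ℕ) : ℝ[X] :=
  ss β γ (j + (n + 1)) - QQ n h γ r e R * ss β γ j

theorem ss_zero : ss β γ 0 = 0 := rfl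
theorem ss_one : ss β γ 1 = 1 := rfl

theorem Data.sols (D : Data n h β γ r e R t) : Sol β γ (ss β γ) := fwd_sol D.hγ _ _

theorem Data.solf (D : Data n h β γ r e R t) : Sol β γ (ff n h β γ r e R) := by
  have h1 := (D.sols.shift D.pβ D.pγ).comb D.sols 1 (-QQ n h γ r e R)
  intro j
  have h2 := h1 j
  simp only at h2
  unfold ff
  linear_combination h2

theorem Data.two (D : Data n h β γ r e R t) (i : ℕ) :
    ∃ φ, Sol β γ φ ∧ φ i = 0 ∧ (φ (i + 1)).natDegree = 0 ∧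
      ∀ k, ss β γ k * R i - ss β γ i * R k = C (γ 0) * R 0 * φ k := by
  obtain ⟨φ, h1, h2, h3⟩ := exists_sol (β := β) D.hγ i 0 (C (γ i)⁻¹)
  refine ⟨φ, h1, h2, by rw [h3, natDegree_C], ?_⟩
  intro k
  have hl := D.sols.comb D.solR (R i) (-(ss β γ i))
  have hr := h1.comb h1 (C (γ 0) * R 0) 0
  have := hl.unique D.hγ hr (k := i) (by rw [h2]; ring) (by
    rw [h3]
    have hc := D.sols.cas D.solR i
    rw [ss_zero, ss_one] at hc
    have h' : C (γ i)⁻¹ * C (γ i) = (1 : ℝ[X]) := by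
      rw [← C_mul, inv_mul_cancel₀ (D.hγ _), C_1]
    linear_combination C (γ i)⁻¹ * hc
      - (ss β γ (i + 1) * R i - ss β γ i * R (i + 1)) * h') k
  linear_combination this

theorem Data.idA (D : Data n h β γ r e R t) (i : ℕ) :
    ∃ φ : ℝ[X], φ.natDegree ≤ n ∧
      ff n h β γ r e R i * R i = HH n h γ r e R * (ss β γ i * t i) + φ * R 0 := by
  obtain ⟨φ, h1, h2, h3, h4⟩ := D.two i
  refine ⟨C (γ 0) * φ (i + (n + 1)), ?_, ?_⟩
  · refine (natDegree_C_mul_le _ _).trans ?_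
    rw [show i + (n + 1) = i + 1 + n by omega]
    exact (h1.deg_up D.hγ (by rw [h2, natDegree_zero]) h3 n).2.1
  · have h5 := h4 (i + (n + 1))
    have h6 := D.star i
    unfold ff
    linear_combination h5 + ss β γ i * h6

theorem Data.Rg (D : Data n h β γ r e R t) :
    R (n + 1) = ss β γ (n + 1) * R 1 + fwd β γ 1 0 (n + 1) * R 0 := by
  have h1 := D.sols.comb (fwd_sol D.hγ 1 0) (R 1) (R 0)
  have := D.solR.unique D.hγ h1 (k := 0) (by simp [ss_zero, fwd]) (by simp [ss_one, fwd]) (n + 1)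
  linear_combination this

theorem Data.degs (D : Data n h β γ r e R t) :
    (ss β γ (n + 1)).natDegree ≤ n ∧ (fwd β γ 1 0 (n + 1)).natDegree ≤ n := by
  constructor
  · have := (D.sols.deg_up D.hγ (i := 0) (by rw [ss_zero, natDegree_zero])
      (by rw [zero_add, ss_one, natDegree_one]) n).2.1
    rwa [show 0 + 1 + n = n + 1 by omega] at this
  · have := ((fwd_sol (β := β) D.hγ 1 0).deg_up D.hγ (i := 0) (by simp [fwd])
      (by simp [fwd]) n).2.1
    rwa [show 0 + 1 + n = n + 1 by omega] at this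

theorem Data.idB (D : Data n h β γ r e R t) (i : ℕ) :
    ∃ φ ψ : ℝ[X], φ.natDegree ≤ n ∧ ψ.natDegree ≤ n ∧
      ff n h β γ r e R i * R (i + 1) =
        HH n h γ r e R * (ss β γ i * t (i + 1)) + φ * R 0 + ψ * R 1 := by
  obtain ⟨φ, h1, h2, h3, h4⟩ := D.two (i + 1)
  obtain ⟨d1, d2⟩ := D.degs
  refine ⟨C (γ 0) * φ (i + (n + 1)) + C (γ 0 / γ i) * fwd β γ 1 0 (n + 1),
    C (γ 0 / γ i) * ss β γ (n + 1), ?_, ?_, ?_⟩
  · refine (natDegree_add_le _ _).trans (max_le ?_ ?_)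
    · refine (natDegree_C_mul_le _ _).trans ?_
      rw [show i + (n + 1) = i + 1 + n by omega]
      exact (h1.deg_up D.hγ (by rw [h2, natDegree_zero]) h3 n).1
    · exact (natDegree_C_mul_le _ _).trans d2
  · exact (natDegree_C_mul_le _ _).trans d1
  · have h5 := h4 (i + (n + 1))
    have h6 := D.star (i + 1)
    have h7 := D.sols.cas (D.solR.shift D.pβ D.pγ) i
    rw [ss_zero, ss_one, zero_add] at h7
    have h8 := D.Rg
    have hc : C (γ 0 / γ i) = C (γ i)⁻¹ * (C (γ 0) : ℝ[X]) := by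
      rw [← C_mul]; congr 1; ring
    have h' : C (γ i)⁻¹ * C (γ i) = (1 : ℝ[X]) := by
      rw [← C_mul, inv_mul_cancel₀ (D.hγ _), C_1]
    unfold ff
    rw [hc]
    linear_combination h5 + ss β γ i * h6 + C (γ i)⁻¹ * h7
      - (ss β γ (i + 1) * R (i + (n + 1)) - ss β γ i * R (i + 1 + (n + 1))) * h'
      + C (γ i)⁻¹ * C (γ 0) * h8

theorem Data.degR (D : Data n h β γ r e R t) :
    (R (h + (n + 1))).natDegree ≤ n ∧ (R (h + 1 + (n + 1))).natDegree ≤ n + 1 ∧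
      C (γ h) * R (h + 1) = C r ∧ (R h).natDegree = 0 ∧ (R (h + 1)).natDegree = 0 := by
  have e1 : (R h).natDegree = 0 := by rw [D.Rh, natDegree_one]
  have e2 : R (h + 1) = C ((γ h)⁻¹ * r) := by
    have h' : C (γ h)⁻¹ * C (γ h) = (1 : ℝ[X]) := by
      rw [← C_mul, inv_mul_cancel₀ (D.hγ _), C_1]
    rw [C_mul]
    linear_combination C (γ h)⁻¹ * D.Rh1 - R (h + 1) * h'
  have e3 : (R (h + 1)).natDegree = 0 := by rw [e2, natDegree_C]
  refine ⟨?_, (D.solR.deg_up D.hγ e1 e3 (n + 1)).2.1, D.Rh1, e1, e3⟩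
  have := (D.solR.deg_up D.hγ e1 e3 n).2.1
  rwa [show h + 1 + n = h + (n + 1) by omega] at this

theorem Data.idD (D : Data n h β γ r e R t) (he : e = 1) :
    ∃ φ ψ : ℝ[X], φ.natDegree ≤ n ∧ ψ.natDegree ≤ n ∧
      HH n h γ r e R * (ss β γ h * t h) = φ * R 0 + ψ * R 1 := by
  subst he
  obtain ⟨d1, d2⟩ := D.degs
  obtain ⟨d3, -⟩ := D.degR
  refine ⟨C ((1 + r * 1)⁻¹ * γ 0) * fwd β γ 1 0 (n + 1) - C ((1 + r * 1)⁻¹ * γ 0) *
    R (h + (n + 1)), C ((1 + r * 1)⁻¹ * γ 0) * ss β γ (n + 1), ?_, ?_, ?_⟩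
  · exact (natDegree_sub_le _ _).trans (max_le ((natDegree_C_mul_le _ _).trans d2)
      ((natDegree_C_mul_le _ _).trans d3))
  · exact (natDegree_C_mul_le _ _).trans d1
  · have h1 := D.sols.cas D.solR h
    have h2 := D.sols.cas D.solt h
    rw [ss_zero, ss_one, D.Rh] at h1
    rw [ss_zero, ss_one, D.th] at h2
    have h3 := D.star h
    have h4 := D.star 0
    have h5 := D.Rg
    have h6 := D.Rh1
    have h7 := D.th1
    rw [D.Rh, D.th] at h3
    rw [D.th]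
    rw [zero_add] at h4
    simp only [C_1] at h2 h3 ⊢
    have hC : C (1 + r * 1)⁻¹ * (1 + C r) = (1 : ℝ[X]) := by
      rw [show (1 + C r : ℝ[X]) = C (1 + r * 1) by simp, ← C_mul, inv_mul_cancel₀ D.ne, C_1]
    rw [C_mul]
    -- (1 + r) s_h = γ 0 (t 0 - R 0)
    have h8 : (1 + C r) * ss β γ h = C (γ 0) * (t 0 - R 0) := by
      linear_combination h2 - h1 - ss β γ h * h6 + ss β γ h * h7
    linear_combination (-(HH n h γ r 1 R * ss β γ h)) * hC
      + C (1 + r * 1)⁻¹ * HH n h γ r 1 R * h8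
      + C (1 + r * 1)⁻¹ * C (γ 0) * (h5 - h4) + C (1 + r * 1)⁻¹ * C (γ 0) * R 0 * h3

end

end Pool.Agent.NH79.Tad
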