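import Mathlib

/-! Existence of a Jacobi matrix with prescribed last two characteristic polynomials. -/

set_option autoImplicit false

open Polynomial

namespace Pool.Agent.NH79.Tad

/-- conditions on a functional and two polynomials -/
structure Cond (n : ℕ) (Λ : ℝ[X] →ₗ[ℝ] ℝ) (D Y : ℝ[X]) (c : ℝ) : Prop where
  pos : ∀ φ : ℝ[X], φ ≠ 0 → φ.degree < n → 0 < Λ (φ * φ)
  hc : 0 < c
  dD : D.natDegree ≤ n
  cD : 0 < D.coeff n
  dY : Y.degree < n
  lY : ∀ φ : ℝ[X], φ.degree < n → Λ (Y * φ) = c * (X * φ).coeff n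
  lD : ∀ φ : ℝ[X], φ.degree < n → Λ (D * φ) = 0

theorem tail (n : ℕ) : ∀ (Λ : ℝ[X] →ₗ[ℝ] ℝ) (D Y : ℝ[X]) (c : ℝ), Cond n Λ D Y c →
    ∃ (β γ : ℕ → ℝ) (l : ℕ → ℝ[X]), (∀ p, γ p ≠ 0) ∧ l 0 = 0 ∧ l (n + 1) = D ∧
      C (γ n) * l n = Y ∧ l 1 ≠ 0 ∧
      (∀ p, p < n → X * l (p + 1) = C (γ p) * l p + C (β (p + 1)) * l (p + 1)
        + C (γ (p + 1)) * l (p + 2)) ∧
      (∀ p, p ≤ n + 1 → (l p).natDegree ≤ p - 1) := by
  induction n with
  | zero =>
    intro Λ D Y c hc
    refine ⟨fun _ => 0, fun _ => 1, fun p => if p = 0 then 0 else D, fun _ => one_ne_zero, by simp,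
      by simp, ?_, ?_, fun p hp => absurd hp (by omega), ?_⟩
    · have : Y = 0 := by
        have h := hc.dY
        rw [Nat.cast_zero] at h
        by_contra hne
        rw [degree_eq_natDegree hne] at h
        exact absurd h (not_lt.2 (by exact_mod_cast Nat.zero_le _))
      simp [this]
    · have := hc.cD
      simp only [one_ne_zero, if_false]
      intro h
      rw [h] at this
      simp at this
    · intro p hp
      have := hc.dD
      interval_cases p <;> simp_all
  | succ n ih =>
    intro Λ D Y c hc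
    have hY0 : Y ≠ 0 := by
      intro h
      have h1 := hc.lY (X ^ n) (by rw [degree_X_pow]; exact_mod_cast Nat.lt_succ_self n)
      rw [h, zero_mul, map_zero, ← pow_succ', coeff_X_pow_self, mul_one] at h1
      exact absurd h1.symm hc.hc.ne'
    have hYn : 0 < Y.coeff n := by
      have h1 := hc.pos Y hY0 hc.dY
      rw [hc.lY Y hc.dY, coeff_X_mul] at h1
      exact pos_of_mul_pos_right h1 hc.hc.le |> fun h => h
    set g : ℝ := Real.sqrt (Y.coeff n / D.coeff (n + 1)) with hg
    have hgp : 0 < g := Real.sqrt_pos.2 (div_pos hYn hc.cD)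
    have hg2 : g * g = Y.coeff n / D.coeff (n + 1) :=
      Real.mul_self_sqrt (div_pos hYn hc.cD).le
    set D1 : ℝ[X] := C g⁻¹ * Y with hD1
    have hD1n : D1.natDegree ≤ n := by
      refine (natDegree_C_mul_le _ _).trans ?_
      have := hc.dY
      rw [degree_eq_natDegree hY0] at this
      exact Nat.lt_succ_iff.1 (by exact_mod_cast this)
    have hD1c : D1.coeff n = g⁻¹ * Y.coeff n := by rw [hD1, coeff_C_mul]
    have hD1p : 0 < D1.coeff n := by rw [hD1c]; positivity
    set b : ℝ := (X * D1 - C g * D).coeff n / D1.coeff n with hb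
    set Y1 : ℝ[X] := X * D1 - C b * D1 - C g * D with hY1
    have hgD : g⁻¹ * Y.coeff n = g * D.coeff (n + 1) := by
      have h2 := hc.cD.ne'
      have h3 : g * g * D.coeff (n + 1) = Y.coeff n := by
        rw [hg2]; field_simp
      rw [← h3]
      field_simp
    have hY1d : Y1.degree < n := by
      rw [degree_lt_iff_coeff_zero]
      intro m hm
      rcases Nat.lt_or_ge m (n + 1) with h1 | h1
      · obtain rfl : m = n := by omega
        rw [hY1, coeff_sub, coeff_sub, coeff_C_mul, hb]
        have : (X * D1 - C g * D).coeff m / D1.coeff m * D1.coeff m =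
          (X * D1 - C g * D).coeff m := by field_simp
        rw [this, coeff_sub]
        ring
      · obtain ⟨k, rfl⟩ : ∃ k, m = k + 1 := ⟨m - 1, by omega⟩
        have e1 : (C b * D1).coeff (k + 1) = b * D1.coeff (k + 1) := coeff_C_mul _
        have e2 : (C g * D).coeff (k + 1) = g * D.coeff (k + 1) := coeff_C_mul _
        rw [hY1, coeff_sub, coeff_sub, e1, e2, coeff_X_mul,
          coeff_eq_zero_of_natDegree_lt (lt_of_le_of_lt hD1n (by omega : n < k + 1))]
        rcases Nat.lt_or_ge n k with h2 | h2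
        · rw [coeff_eq_zero_of_natDegree_lt (lt_of_le_of_lt hD1n h2),
            coeff_eq_zero_of_natDegree_lt (lt_of_le_of_lt hc.dD (by omega : n + 1 < k + 1))]
          ring
        · obtain rfl : k = n := by omega
          rw [hD1c, hgD]
          ring
    have key : ∀ ψ : ℝ[X], ψ.degree < ((n + 1 : ℕ) : WithBot ℕ) →
        Λ (D1 * ψ) = g⁻¹ * c * ψ.coeff n := by
      intro ψ hψ
      have h1 := hc.lY ψ hψ
      rw [coeff_X_mul] at h1
      rw [hD1, mul_assoc, ← smul_eq_C_mul, map_smul, h1, smul_eq_mul]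
      ring
    have hlt : ∀ φ : ℝ[X], φ.degree < (n : WithBot ℕ) → φ.degree < ((n + 1 : ℕ) : WithBot ℕ) :=
      fun φ h => lt_of_lt_of_le h (by exact_mod_cast Nat.le_succ n)
    have hc1 : Cond n Λ D1 Y1 (g⁻¹ * c) := by
      refine ⟨fun φ h0 h => hc.pos φ h0 (hlt φ h), mul_pos (inv_pos.2 hgp) hc.hc, hD1n, hD1p, hY1d,
        ?_, ?_⟩
      · intro φ hφ
        have hX : (X * φ).degree < ((n + 1 : ℕ) : WithBot ℕ) := by
          rw [degree_mul, degree_X]
          rcases eq_or_ne φ 0 with rfl | h0
          · simp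
          · rw [degree_eq_natDegree h0] at hφ ⊢
            have : φ.natDegree < n := by exact_mod_cast hφ
            have h2 : 1 + φ.natDegree < n + 1 := by omega
            exact_mod_cast h2
        have e : Y1 * φ = D1 * (X * φ) - b • (D1 * φ) - g • (D * φ) := by
          rw [hY1, smul_eq_C_mul, smul_eq_C_mul]; ring
        rw [e, map_sub, map_sub, map_smul, map_smul, key _ hX, key _ (hlt φ hφ),
          hc.lD φ (hlt φ hφ), coeff_eq_zero_of_degree_lt hφ]
        simp
      · intro φ hφ
        rw [key _ (hlt φ hφ), coeff_eq_zero_of_degree_lt hφ, mul_zero]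
    obtain ⟨β, γ, l, i1, i2, i3, i4, i5, i6, i7⟩ := ih Λ D1 Y1 _ hc1
    refine ⟨Function.update β (n + 1) b, Function.update γ (n + 1) g,
      Function.update l (n + 2) D, ?_, ?_, ?_, ?_, ?_, ?_, ?_⟩
    · intro p
      rcases eq_or_ne p (n + 1) with rfl | h
      · rw [Function.update_self]; exact hgp.ne'
      · rw [Function.update_of_ne h]; exact i1 p
    · rw [Function.update_of_ne (by omega)]; exact i2
    · rw [show n + 1 + 1 = n + 2 by omega, Function.update_self]
    · rw [Function.update_self, Function.update_of_ne (by omega), i3, hD1, ← mul_assoc, ← C_mul,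
        mul_inv_cancel₀ hgp.ne', C_1, one_mul]
    · rw [Function.update_of_ne (by omega)]; exact i5
    · intro p hp
      rcases Nat.lt_or_ge p n with h | h
      · rw [Function.update_of_ne (by omega), Function.update_of_ne (by omega),
          Function.update_of_ne (by omega), Function.update_of_ne (by omega),
          Function.update_of_ne (by omega), Function.update_of_ne (by omega)]
        exact i6 p h
      · obtain rfl : p = n := by omega
        rw [Function.update_of_ne (by omega), Function.update_of_ne (by omega),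
          Function.update_of_ne (by omega), Function.update_self, Function.update_self,
          Function.update_self, i3, i4, hY1]
        ring
    · intro p hp
      rcases eq_or_ne p (n + 2) with rfl | h
      · rw [Function.update_self]; exact hc.dD
      · rw [Function.update_of_ne h]
        exact i7 p (by omega)

/-- the tail from the nodes -/
theorem tail_nodes (n : ℕ) (θ : ℕ → ℝ) (hθ : Set.InjOn θ (Finset.range n : Set ℕ)) (d : ℝ)
    (hd : 0 < d) (Y : ℝ[X]) (hY : Y.degree < n)
    (hs : ∀ k ∈ Finset.range n, 0 < Y.eval (θ k) *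
      (derivative (C d * Lagrange.nodal (Finset.range n) θ)).eval (θ k)) :
    ∃ (β γ : ℕ → ℝ) (l : ℕ → ℝ[X]), (∀ p, γ p ≠ 0) ∧ l 0 = 0 ∧
      l (n + 1) = C d * Lagrange.nodal (Finset.range n) θ ∧
      C (γ n) * l n = Y ∧ l 1 ≠ 0 ∧
      (∀ p, p < n → X * l (p + 1) = C (γ p) * l p + C (β (p + 1)) * l (p + 1)
        + C (γ (p + 1)) * l (p + 2)) ∧
      (∀ p, p ≤ n + 1 → (l p).natDegree ≤ p - 1) := by
  set D := C d * Lagrange.nodal (Finset.range n) θ with hD
  have hder : ∀ k ∈ Finset.range n, (derivative D).eval (θ k) =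
      d * ∏ j ∈ (Finset.range n).erase k, (θ k - θ j) := by
    intro k hk
    rw [hD, derivative_C_mul, eval_C_mul, Lagrange.eval_nodal_derivative_eval_node_eq hk,
      Lagrange.eval_nodal]
  set Λ : ℝ[X] →ₗ[ℝ] ℝ := ∑ k ∈ Finset.range n,
    ((Y.eval (θ k) * (derivative D).eval (θ k))⁻¹) • Polynomial.leval (θ k) with hΛ
  have hΛe : ∀ φ, Λ φ = ∑ k ∈ Finset.range n,
      (Y.eval (θ k) * (derivative D).eval (θ k))⁻¹ * φ.eval (θ k) := by
    intro φ
    rw [hΛ]
    simp [LinearMap.sum_apply, Polynomial.leval_apply]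
  have hcard : (Finset.range n).card = n := Finset.card_range n
  refine tail n Λ D Y d⁻¹ ⟨?_, inv_pos.2 hd, ?_, ?_, hY, ?_, ?_⟩
  · intro φ h0 hφ
    rw [hΛe]
    have hex : ∃ k ∈ Finset.range n, φ.eval (θ k) ≠ 0 := by
      by_contra hcon
      push Not at hcon
      exact h0 (eq_zero_of_degree_lt_of_eval_index_eq_zero _ hθ (by rwa [hcard]) hcon)
    obtain ⟨k, hk, hk'⟩ := hex
    refine Finset.sum_pos' (fun i hi => ?_) ⟨k, hk, ?_⟩
    · rw [eval_mul]
      exact mul_nonneg (inv_pos.2 (hs i hi)).le (mul_self_nonneg _)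
    · rw [eval_mul]
      exact mul_pos (inv_pos.2 (hs k hk)) (mul_self_pos.2 hk')
  · rw [hD]
    refine (natDegree_C_mul_le _ _).trans ?_
    rw [Lagrange.natDegree_nodal, hcard]
  · rw [hD, coeff_C_mul]
    have h1 := (Lagrange.nodal_monic (s := Finset.range n) (v := θ))
    have h2 : (Lagrange.nodal (Finset.range n) θ).coeff n = 1 := by
      have := h1.coeff_natDegree
      rwa [Lagrange.natDegree_nodal, hcard] at this
    rw [h2, mul_one]
    exact hd
  · intro φ hφ
    rw [hΛe]
    rcases Nat.eq_zero_or_pos n with rfl | hn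
    · have : φ = 0 := by
        rw [Nat.cast_zero] at hφ
        by_contra hne
        rw [degree_eq_natDegree hne] at hφ
        exact absurd hφ (not_lt.2 (by exact_mod_cast Nat.zero_le _))
      simp [this]
    · obtain ⟨N, rfl⟩ : ∃ N, n = N + 1 := ⟨n - 1, by omega⟩
      rw [coeff_X_mul]
      have h1 := Lagrange.coeff_eq_sum (s := Finset.range (N + 1)) (v := θ) hθ (P := φ)
        (by rwa [hcard])
      rw [hcard, Nat.add_sub_cancel] at h1
      rw [h1, Finset.mul_sum]
      refine Finset.sum_congr rfl fun k hk => ?_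
      have h2 := hs k hk
      rw [hder k hk] at h2 ⊢
      have h3 : Y.eval (θ k) ≠ 0 := by
        intro h; rw [h] at h2; simp at h2
      have h4 : ∏ j ∈ (Finset.range (N + 1)).erase k, (θ k - θ j) ≠ 0 := by
        intro h; rw [h] at h2; simp at h2
      rw [eval_mul]
      field_simp
  · intro φ _
    rw [hΛe]
    refine Finset.sum_eq_zero fun k hk => ?_
    rw [eval_mul, hD, eval_C_mul, Lagrange.eval_nodal_at_node hk]
    ring

end Pool.Agent.NH79.Tad
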