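import Pool.Agent.NH79.Tad.Alg
import Pool.Agent.NH79.Tad.Tail

/-! Rescaled Chebyshev polynomials, the periodic background and the existence of the tail. -/

set_option autoImplicit false

open Polynomial

namespace Pool.Agent.NH79.Tad

/-- rescaled Chebyshev polynomials of the second kind -/
noncomputable def Sp : ℕ → ℝ[X]
  | 0 => 0
  | 1 => 1
  | (k + 2) => X * Sp (k + 1) - Sp k

theorem Sp_rec (k : ℕ) : Sp (k + 2) = X * Sp (k + 1) - Sp k := rfl

theorem Sp_deg (k : ℕ) : (Sp (k + 1)).natDegree ≤ k ∧ (Sp (k + 1)).coeff k = 1 ∧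
    (Sp k).natDegree ≤ k := by
  induction k with
  | zero => simp [Sp]
  | succ k ih =>
    obtain ⟨h1, h2, h3⟩ := ih
    refine ⟨?_, ?_, h1.trans (by omega)⟩
    · rw [Sp_rec]
      refine (natDegree_sub_le _ _).trans (max_le ?_ (h3.trans (by omega)))
      refine natDegree_mul_le.trans ?_
      rw [natDegree_X]; omega
    · rw [Sp_rec, coeff_sub, coeff_X_mul, h2,
        coeff_eq_zero_of_natDegree_lt (lt_of_le_of_lt h3 (by omega)), sub_zero]

theorem Sp_cas (k : ℕ) : Sp (k + 1) * Sp (k + 1) - Sp k * Sp (k + 2) = 1 := by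
  induction k with
  | zero => simp [Sp]
  | succ k ih =>
    have h1 := Sp_rec k
    have h2 := Sp_rec (k + 1)
    rw [show k + 1 + 2 = k + 3 by omega, show k + 1 + 1 = k + 2 by omega] at *
    linear_combination ih - Sp (k + 1) * h2 + Sp (k + 2) * h1

theorem Sp_cd (k : ℕ) : derivative (Sp (k + 1)) * Sp k - Sp (k + 1) * derivative (Sp k) =
    ∑ j ∈ Finset.range (k + 1), Sp j * Sp j := by
  induction k with
  | zero => simp [Sp]
  | succ k ih =>
    rw [Finset.sum_range_succ, ← ih, show k + 1 + 1 = k + 2 by omega, Sp_rec k]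
    simp only [derivative_sub, derivative_mul, derivative_X]
    ring

theorem Sp_trig (φ : ℝ) (k : ℕ) : (Sp k).eval (2 * Real.cos φ) * Real.sin φ = Real.sin (k * φ) ∧
    (Sp (k + 1)).eval (2 * Real.cos φ) * Real.sin φ = Real.sin ((k + 1 : ℕ) * φ) := by
  induction k with
  | zero => simp [Sp]
  | succ k ih =>
    refine ⟨ih.2, ?_⟩
    rw [show k + 1 + 1 = k + 2 by omega, Sp_rec, eval_sub, eval_mul, eval_X]
    have h1 : Real.sin ((k + 2 : ℕ) * φ) + Real.sin (k * φ) =
        2 * Real.sin ((k + 1 : ℕ) * φ) * Real.cos φ := by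
      have e1 : ((k + 2 : ℕ) : ℝ) * φ = (k + 1 : ℕ) * φ + φ := by push_cast; ring
      have e2 : (k : ℝ) * φ = (k + 1 : ℕ) * φ - φ := by push_cast; ring
      rw [e1, e2, Real.sin_add, Real.sin_sub]
      ring
    linear_combination 2 * Real.cos φ * ih.2 - ih.1 - h1

/-- the roots -/
noncomputable def th (n k : ℕ) : ℝ := 2 * Real.cos ((k + 1 : ℕ) * (Real.pi / (n + 1)))

theorem th_mem {n k : ℕ} (hk : k < n) : 0 < ((k + 1 : ℕ) : ℝ) * (Real.pi / (n + 1)) ∧
    ((k + 1 : ℕ) : ℝ) * (Real.pi / (n + 1)) < Real.pi := by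
  have hn : (0 : ℝ) < n + 1 := by positivity
  refine ⟨by positivity, ?_⟩
  rw [mul_div_assoc', div_lt_iff₀ hn, mul_comm]
  have : ((k + 1 : ℕ) : ℝ) < n + 1 := by
    have : ((k : ℝ)) < n := by exact_mod_cast hk
    push_cast; linarith
  exact mul_lt_mul_of_pos_left this Real.pi_pos

theorem th_root {n k : ℕ} (hk : k < n) : (Sp (n + 1)).eval (th n k) = 0 := by
  obtain ⟨h1, h2⟩ := th_mem hk
  have h3 := (Sp_trig (((k + 1 : ℕ) : ℝ) * (Real.pi / (n + 1))) n).2
  have h4 : ((n + 1 : ℕ) : ℝ) * (((k + 1 : ℕ) : ℝ) * (Real.pi / (n + 1))) = (k + 1 : ℕ) * Real.pi := by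
    have : (n : ℝ) + 1 ≠ 0 := by positivity
    push_cast
    field_simp
  rw [h4, Real.sin_nat_mul_pi] at h3
  exact (mul_eq_zero.1 h3).resolve_right (Real.sin_pos_of_pos_of_lt_pi h1 h2).ne'

theorem th_gt {n k : ℕ} (hk : k < n) : -2 < th n k := by
  obtain ⟨h1, h2⟩ := th_mem hk
  have h3 : Real.cos Real.pi < Real.cos (((k + 1 : ℕ) : ℝ) * (Real.pi / (n + 1))) :=
    Real.cos_lt_cos_of_nonneg_of_le_pi h1.le le_rfl h2
  rw [Real.cos_pi] at h3
  unfold th
  linarith

theorem th_inj (n : ℕ) : Set.InjOn (th n) (Finset.range n : Set ℕ) := by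
  intro a ha b hb hab
  rw [Finset.coe_range, Set.mem_Iio] at ha hb
  obtain ⟨h1, h2⟩ := th_mem ha
  obtain ⟨h3, h4⟩ := th_mem hb
  unfold th at hab
  have h5 := Real.injOn_cos ⟨h1.le, h2.le⟩ ⟨h3.le, h4.le⟩ (by linarith)
  have hn : Real.pi / ((n : ℝ) + 1) ≠ 0 := by positivity
  have h6 := mul_right_cancel₀ hn h5
  have : a + 1 = b + 1 := by exact_mod_cast h6
  omega

theorem Sp_nodal (n : ℕ) : Sp (n + 1) = Lagrange.nodal (Finset.range n) (th n) := by
  have hm : (Sp (n + 1)).natDegree ≤ n ∧ (Sp (n + 1)).coeff n = 1 :=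
    ⟨(Sp_deg n).1, (Sp_deg n).2.1⟩
  have h2 : (Lagrange.nodal (Finset.range n) (th n)).natDegree = n := by
    rw [Lagrange.natDegree_nodal, Finset.card_range]
  refine eq_of_degree_sub_lt_of_eval_index_eq _ (th_inj n) ?_ ?_
  · rw [Finset.card_range, degree_lt_iff_coeff_zero]
    intro m hm'
    rw [coeff_sub]
    rcases Nat.lt_or_ge n m with h | h
    · rw [coeff_eq_zero_of_natDegree_lt (lt_of_le_of_lt hm.1 h),
        coeff_eq_zero_of_natDegree_lt (lt_of_le_of_lt h2.le h), sub_zero]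
    · obtain rfl : m = n := by omega
      have h1 := (Lagrange.nodal_monic (s := Finset.range m) (v := th m)).coeff_natDegree
      rw [h2] at h1
      rw [hm.2, h1, sub_self]
  · intro k hk
    rw [th_root (Finset.mem_range.1 hk), Lagrange.eval_nodal_at_node hk]

/-- background bonds -/
noncomputable def gb (n : ℕ) (r e : ℝ) (j : ℕ) : ℝ :=
  if j % (n + 1) = 0 then Real.sqrt (1 - r * e) else if j % (n + 1) = n then Real.sqrt 2 else 1

/-- background potentials -/
noncomputable def bb (n : ℕ) (r e : ℝ) (j : ℕ) : ℝ := if j % (n + 1) = 0 then e - r else 0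

section
variable {n : ℕ} {r e : ℝ}

theorem mod_cell (c : ℕ) {j : ℕ} (hj : j < n + 1) : (c * (n + 1) + j) % (n + 1) = j := by
  rw [add_comm, Nat.add_mul_mod_self_right, Nat.mod_eq_of_lt hj]

theorem gb_ne (he : r * e < 1) (j : ℕ) : gb n r e j ≠ 0 := by
  unfold gb
  split_ifs
  · exact (Real.sqrt_pos.2 (by linarith)).ne'
  · exact (Real.sqrt_pos.2 (by norm_num)).ne'
  · exact one_ne_zero

theorem gb0 (c : ℕ) : gb n r e (c * (n + 1)) = Real.sqrt (1 - r * e) := by
  unfold gb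
  rw [Nat.mul_mod_left, if_pos rfl]

theorem gbn (hn : 1 ≤ n) (c : ℕ) : gb n r e (c * (n + 1) + n) = Real.sqrt 2 := by
  unfold gb
  rw [mod_cell c (by omega), if_neg (by omega), if_pos rfl]

theorem gb1 (c : ℕ) {j : ℕ} (h0 : 0 < j) (h1 : j < n) : gb n r e (c * (n + 1) + j) = 1 := by
  unfold gb
  rw [mod_cell c (by omega), if_neg (by omega), if_neg (by omega)]

theorem bb0 (c : ℕ) : bb n r e (c * (n + 1)) = e - r := by
  unfold bb
  rw [Nat.mul_mod_left, if_pos rfl]

theorem bb1 (c : ℕ) {j : ℕ} (h0 : 0 < j) (h1 : j ≤ n) : bb n r e (c * (n + 1) + j) = 0 := by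
  unfold bb
  rw [mod_cell c (by omega), if_neg (by omega)]

/-- the rescaled solution in a cell -/
noncomputable def hat (n : ℕ) (r e : ℝ) (y : ℕ → ℝ[X]) (c j : ℕ) : ℝ[X] :=
  if j = 0 then C (Real.sqrt (1 - r * e)) * y (c * (n + 1)) else
  if j = n + 1 then C (Real.sqrt 2) * y (c * (n + 1) + (n + 1)) else y (c * (n + 1) + j)

theorem hat_rec (hn : 1 ≤ n) {y : ℕ → ℝ[X]} (hy : Sol (bb n r e) (gb n r e) y) (c : ℕ) {j : ℕ}
    (hj : j + 1 ≤ n) : X * hat n r e y c (j + 1) = hat n r e y c j + hat n r e y c (j + 2) := by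
  have h := hy (c * (n + 1) + j)
  rw [show c * (n + 1) + j + 1 = c * (n + 1) + (j + 1) by omega,
    bb1 c (Nat.succ_pos j) hj, C_0, zero_mul, add_zero] at h
  have e1 : hat n r e y c (j + 1) = y (c * (n + 1) + (j + 1)) := by
    unfold hat
    rw [if_neg (by omega), if_neg (by omega)]
  have e2 : hat n r e y c j = C (gb n r e (c * (n + 1) + j)) * y (c * (n + 1) + j) := by
    unfold hat
    rcases Nat.eq_zero_or_pos j with rfl | h0
    · rw [if_pos rfl, add_zero, gb0]
    · rw [if_neg (by omega), if_neg (by omega), gb1 c h0 (by omega), C_1, one_mul]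
  have e3 : hat n r e y c (j + 2) =
      C (gb n r e (c * (n + 1) + (j + 1))) * y (c * (n + 1) + j + 2) := by
    unfold hat
    rw [if_neg (by omega)]
    rcases Nat.lt_or_ge (j + 1) n with h1 | h1
    · rw [if_neg (by omega), gb1 c (Nat.succ_pos j) h1, C_1, one_mul]
      rfl
    · obtain rfl : n = j + 1 := by omega
      rw [if_pos rfl, gbn hn]
      congr 2
  rw [e1, e2, e3, h]

theorem hat_eq (hn : 1 ≤ n) {y : ℕ → ℝ[X]} (hy : Sol (bb n r e) (gb n r e) y) (c : ℕ) (j : ℕ)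
    (hj : j ≤ n) : hat n r e y c (j + 1) = Sp (j + 1) * y (c * (n + 1) + 1)
      - Sp j * (C (Real.sqrt (1 - r * e)) * y (c * (n + 1))) := by
  have e0 : hat n r e y c 0 = C (Real.sqrt (1 - r * e)) * y (c * (n + 1)) := by
    unfold hat; rw [if_pos rfl]
  have e1 : hat n r e y c 1 = y (c * (n + 1) + 1) := by
    unfold hat; rw [if_neg (by omega), if_neg (by omega)]
  have key : ∀ j, j ≤ n → (hat n r e y c (j + 1) = Sp (j + 1) * y (c * (n + 1) + 1)
      - Sp j * (C (Real.sqrt (1 - r * e)) * y (c * (n + 1)))) ∧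
      (1 ≤ j → hat n r e y c j = Sp j * y (c * (n + 1) + 1)
      - Sp (j - 1) * (C (Real.sqrt (1 - r * e)) * y (c * (n + 1)))) := by
    intro j
    induction j with
    | zero =>
      intro _
      refine ⟨?_, fun h => absurd h (by omega)⟩
      rw [zero_add, e1]
      simp [Sp]
    | succ j ih =>
      intro hj
      obtain ⟨h1, h2⟩ := ih (by omega)
      refine ⟨?_, fun _ => by simpa using h1⟩
      have h3 := hat_rec hn hy c hj
      rw [h1] at h3
      rcases Nat.eq_zero_or_pos j with rfl | h0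
      · rw [e0] at h3
        rw [show 0 + 1 + 1 = 2 by omega]
        rw [show 0 + 2 = 2 by omega] at h3
        rw [show Sp 2 = X * Sp 1 - Sp 0 from rfl]
        simp only [Sp] at h3 ⊢
        linear_combination -h3
      · rw [h2 h0] at h3
        obtain ⟨i, rfl⟩ : ∃ i, j = i + 1 := ⟨j - 1, by omega⟩
        rw [Nat.add_sub_cancel] at h3
        rw [show i + 1 + 1 + 1 = i + 1 + 2 by omega, Sp_rec (i + 1),
          show i + 1 + 1 = i + 2 by omega] at *
        have h4 := Sp_rec i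
        linear_combination -h3 + (C (Real.sqrt (1 - r * e)) * y (c * (n + 1))) * h4
  exact (key j hj).1

end

end Pool.Agent.NH79.Tad
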