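import Pool.Agent.NH79.Tad.Main

/-! Tadpoles with short tails are not SSP graphs. -/

set_option autoImplicit false

open Polynomial

namespace Pool.Agent.NH79.Tad

open Pool.Agent.Results.MP_34deb4_co.LongTails

theorem not_ssp {m n h : ℕ} {e : ℝ} (hn : 1 ≤ n) (hh : n + 2 ≤ h)
    (hm : (m = 2 * h ∧ e = 0) ∨ (m = 2 * h + 1 ∧ e = 1)) : ¬ IsSSPGraph (tadpole m n) := by
  have he : e = 0 ∨ e = 1 := hm.imp And.right And.right
  obtain ⟨β, γ, r, R, t, D, βT, γT, l, v, hκ, gT, l0, ln1, lY, l1, lrec, ldeg⟩ :=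
    exists_setup hn h he
  set κ : ℝ := 1 + r * e with hκd
  set s : ℝ := Real.sqrt κ with hs
  have hs2 : s * s = κ := Real.mul_self_sqrt hκ.le
  have hs0 : s ≠ 0 := (Real.sqrt_pos.2 hκ).ne'
  set f := ff n h β γ r e R with hf
  have f0 : f 0 = ss β γ (n + 1) := by
    rw [hf]; unfold ff; rw [ss_zero, mul_zero, sub_zero, zero_add]
  -- coefficients of the even part
  set γp : ℕ → ℝ := fun p => if p ≤ n then γT p else if p = n + 1 then s * γ 0 else γ (p - (n + 1))
    with hγp
  set βp : ℕ → ℝ := fun p => if p ≤ n then βT p else if p = n + 1 then v else β (p - (n + 1))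
    with hβp
  have gp1 : ∀ p, p ≤ n → γp p = γT p := fun p hp => by simp only [hγp]; rw [if_pos hp]
  have gp2 : γp (n + 1) = s * γ 0 := by simp only [hγp]; rw [if_neg (by omega), if_true]
  have gp3 : ∀ k, 1 ≤ k → γp (n + 1 + k) = γ k := fun k hk => by
    simp only [hγp]; rw [if_neg (by omega), if_neg (by omega)]; congr 1; omega
  have bp1 : ∀ p, p ≤ n → βp p = βT p := fun p hp => by simp only [hβp]; rw [if_pos hp]
  have bp2 : βp (n + 1) = v := by simp only [hβp]; rw [if_neg (by omega), if_true]
  have bp3 : ∀ k, 1 ≤ k → βp (n + 1 + k) = β k := fun k hk => by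
    simp only [hβp]; rw [if_neg (by omega), if_neg (by omega)]; congr 1; omega
  have gpne : ∀ p, γp p ≠ 0 := by
    intro p
    rcases Nat.lt_or_ge n p with h1 | h1
    · rcases eq_or_ne p (n + 1) with rfl | h2
      · rw [gp2]; exact mul_ne_zero hs0 (D.hγ 0)
      · obtain ⟨k, rfl⟩ : ∃ k, p = n + 1 + k := ⟨p - (n + 1), by omega⟩
        rw [gp3 k (by omega)]; exact D.hγ k
    · rw [gp1 p h1]; exact gT p
  -- the left solution
  set lam : ℕ → ℝ[X] := fun p => if p ≤ n + 1 then l p else C s * f (p - (n + 1)) with hlam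
  have lm1 : ∀ p, p ≤ n + 1 → lam p = l p := fun p hp => by simp only [hlam]; rw [if_pos hp]
  have lm2 : ∀ k, 1 ≤ k → lam (n + 1 + k) = C s * f k := fun k hk => by
    simp only [hlam]; rw [if_neg (by omega)]; congr 2; omega
  have lsol : Sol βp γp lam := by
    intro p
    rcases Nat.lt_or_ge p n with h1 | h1
    · rw [lm1 _ (by omega), lm1 _ (by omega), lm1 _ (by omega), gp1 _ (by omega), gp1 _ (by omega),
        bp1 _ (by omega)]
      exact lrec p h1
    rcases eq_or_ne p n with rfl | h2
    · rw [lm1 _ (by omega), lm1 _ (by omega), gp1 _ le_rfl, gp2, bp2,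
        show p + 2 = p + 1 + 1 by omega, lm2 1 le_rfl, ln1]
      have h3 : C (s * γ 0) * (C s * f 1) = C (κ * γ 0) * f 1 := by
        rw [← hs2]; simp only [C_mul]; ring
      rw [h3]
      linear_combination -lY
    rcases eq_or_ne p (n + 1) with rfl | h3
    · rw [lm2 1 le_rfl, gp2, show n + 1 + 2 = n + 1 + 2 from rfl, lm2 2 (by omega), bp3 1 le_rfl,
        gp3 1 le_rfl, lm1 _ le_rfl, ln1, ← f0]
      have h4 := D.solf 0
      rw [← hf, zero_add, zero_add] at h4
      simp only [C_mul]
      linear_combination C s * h4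
    · obtain ⟨k, rfl⟩ : ∃ k, p = n + 1 + k := ⟨p - (n + 1), by omega⟩
      rw [show n + 1 + k + 1 = n + 1 + (k + 1) by omega, show n + 1 + k + 2 = n + 1 + (k + 2) by omega,
        lm2 _ (by omega), lm2 _ (by omega), lm2 _ (by omega), gp3 _ (by omega), gp3 _ (by omega),
        bp3 _ (by omega)]
      have h4 := D.solf k
      rw [← hf] at h4
      linear_combination C s * h4
  -- the right solution
  obtain ⟨ρ, rsol, r1, r2⟩ := exists_sol (β := βp) gpne (n + 1) (C s⁻¹ * R 0) (R 1)
  have hss : C s * C s⁻¹ = (1 : ℝ[X]) := by rw [← C_mul, mul_inv_cancel₀ hs0, C_1]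
  have hR0 : R 0 = C s * ρ (n + 1) := by rw [r1, ← mul_assoc, hss, one_mul]
  have rR : ∀ k, ρ (n + 1 + (k + 1)) = R (k + 1) ∧ ρ (n + 1 + (k + 2)) = R (k + 2) := by
    intro k
    induction k with
    | zero =>
      have h1 := rsol (n + 1)
      have h2 := D.solR 0
      rw [gp2, show n + 1 + 1 = n + 1 + 1 from rfl, gp3 1 le_rfl, bp3 1 le_rfl, r1, r2] at h1
      refine ⟨by rw [zero_add]; exact r2, ?_⟩
      rw [zero_add] at h2 ⊢
      have h3 : C (γ 1) * ρ (n + 1 + 2) = C (γ 1) * R 2 := by
        rw [zero_add] at h2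
        have h4 : C (s * γ 0) * (C s⁻¹ * R 0) = C (γ 0) * R 0 := by
          rw [C_mul]; linear_combination C (γ 0) * R 0 * hss
        rw [h4] at h1
        linear_combination h2 - h1
      exact mul_left_cancel₀ (by rw [Ne, C_eq_zero]; exact D.hγ 1) h3
    | succ k ih =>
      refine ⟨ih.2, ?_⟩
      have h1 := rsol (n + 1 + (k + 1))
      have h2 := D.solR (k + 1)
      rw [show n + 1 + (k + 1) + 1 = n + 1 + (k + 2) by omega,
        show n + 1 + (k + 1) + 2 = n + 1 + (k + 1 + 2) by omega, ih.1, ih.2,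
        gp3 _ (by omega), gp3 _ (by omega), bp3 _ (by omega)] at h1
      rw [show k + 1 + 1 = k + 2 by omega] at h2
      have h3 : C (γ (k + 2)) * ρ (n + 1 + (k + 1 + 2)) = C (γ (k + 2)) * R (k + 1 + 2) := by
        linear_combination h2 - h1
      exact mul_left_cancel₀ (by rw [Ne, C_eq_zero]; exact D.hγ _) h3
  have rk : ∀ k, 1 ≤ k → ρ (n + 1 + k) = R k := by
    intro k hk
    obtain ⟨j, rfl⟩ : ∃ j, k = j + 1 := ⟨k - 1, by omega⟩
    exact (rR j).1
  have rN : ρ (n + 1 + h) = 1 := by rw [rk h (by omega), D.Rh]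
  have rN1 : ρ (n + 1 + h + 1) = R (h + 1) := rk (h + 1) (by omega)
  -- the functional
  obtain ⟨L, La, Lb, ψ, hψ, hLψ⟩ := exists_fun (n := n) (N := n + 1 + h) (by omega)
    (ρ (n + 1)) (ρ (n + 2))
  have LR0 : ∀ φ : ℝ[X], φ.natDegree ≤ n → L (φ * R 0) = 0 := by
    intro φ hφ
    rw [hR0, show φ * (C s * ρ (n + 1)) = (C s * φ) * ρ (n + 1) by ring]
    exact La _ ((natDegree_C_mul_le _ _).trans hφ)
  have LR1 : ∀ φ : ℝ[X], φ.natDegree ≤ n → L (φ * R 1) = 0 := by
    intro φ hφ
    rw [← rk 1 le_rfl]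
    exact Lb φ hφ
  -- vanishing near the leaf
  have van : ∀ p q, 1 ≤ p → p ≤ n + 1 → p ≤ q → q ≤ n + 2 → L (l p * ρ q) = 0 := by
    intro p q h1 h2 h3 h4
    have hp := ldeg p h2
    rcases eq_or_ne q (n + 2) with rfl | h5
    · exact Lb _ (by omega)
    · obtain ⟨⟨a, b, ha, hb, hab⟩, -⟩ := rsol.comb_down gpne (k := n + 1) (n + 1 - q) q (by omega)
      rw [hab, mul_add, map_add, ← mul_assoc, ← mul_assoc, La, Lb, add_zero]
      · exact natDegree_mul_le.trans (by omega)
      · exact natDegree_mul_le.trans (by omega)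
  -- the kernels
  set vA : ℕ → ℝ[X] := fun p => if p ≤ n + 1 + h then ρ p else 0 with hvA
  have vA1 : ∀ p, p ≤ n + 1 + h → vA p = ρ p := fun p hp => by simp only [hvA]; rw [if_pos hp]
  have vA2 : ∀ p, n + 1 + h < p → vA p = 0 := fun p hp => by
    simp only [hvA]; rw [if_neg (by omega)]
  set βA : ℕ → ℝ := fun p => if p = n + 1 + h then β h + r else βp p with hβA
  have bA1 : ∀ p, p ≠ n + 1 + h → βA p = βp p := fun p hp => by
    simp only [hβA]; rw [if_neg hp]
  have bA2 : βA (n + 1 + h) = β h + r := by simp only [hβA]; rw [if_true]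
  set βM : ℕ → ℝ := fun k => if k = h then β h - 1 else β k with hβM
  have bM1 : ∀ p, p ≠ h → βM p = β p := fun p hp => by simp only [hβM]; rw [if_neg hp]
  have bM2 : βM h = β h - 1 := by simp only [hβM]; rw [if_true]
  set H := HH n h γ r e R with hH
  set vM : ℕ → ℝ[X] := fun k => if k ≤ (m - 1) / 2 then C (-s) * (H * t k) else 0 with hvM
  have vM1 : ∀ p, p ≤ (m - 1) / 2 → vM p = C (-s) * (H * t p) := fun p hp => by
    simp only [hvM]; rw [if_pos hp]
  have vM2 : ∀ p, (m - 1) / 2 < p → vM p = 0 := fun p hp => by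
    simp only [hvM]; rw [if_neg (by omega)]
  set KA : ℕ → ℕ → ℝ := fun p q => L (lam (min p q) * vA (max p q)) with hKA
  set KM : ℕ → ℕ → ℝ := fun p q => L (ss β γ (min p q) * vM (max p q)) with hKM
  have KAe : ∀ p q, p ≤ q → KA p q = L (lam p * vA q) := fun p q hpq => by
    simp only [hKA]; rw [min_eq_left hpq, max_eq_right hpq]
  have KMe : ∀ p q, p ≤ q → KM p q = L (ss β γ p * vM q) := fun p q hpq => by
    simp only [hKM]; rw [min_eq_left hpq, max_eq_right hpq]
  have F : FD m n h βA γp βM γ KA KM := by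
    refine ⟨fun p q => by simp only [hKA]; rw [min_comm, max_comm],
      fun p q => by simp only [hKM]; rw [min_comm, max_comm], ?_, ?_, gpne, ?_, ?_, ?_, ?_, ?_, ?_,
      ?_, ?_, ?_, ?_, ?_⟩
    · -- cA
      refine comm_ker L ?_ vA2 ?_ ?_
      · rw [lm1 0 (by omega), l0]
      · intro p hp
        rw [bA1 _ (by omega)]
        exact lsol p
      · intro p hp0 hp
        rcases Nat.lt_or_ge (p + 1) (n + 1 + h) with h1 | h1
        · rw [vA1 _ (by omega), vA1 _ (by omega), vA1 _ (by omega), bA1 _ (by omega)]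
          exact rsol p
        · obtain rfl : p = n + h := by omega
          have h2 := rsol (n + h)
          rw [show n + h + 1 = n + 1 + h by omega, show n + h + 2 = n + 1 + h + 1 by omega] at *
          rw [vA1 _ le_rfl, vA1 _ (by omega), vA2 _ (by omega), bA2]
          rw [bp3 h (by omega), gp3 h (by omega), rN, rN1] at h2
          rw [rN]
          have h3 := D.Rh1
          rw [C_add]
          linear_combination h2 + h3
    · -- cM
      refine comm_ker L ss_zero vM2 ?_ ?_
      · intro p hp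
        rw [bM1 _ (by omega)]
        exact D.sols p
      · intro p hp0 hp
        rcases Nat.lt_or_ge (p + 1) ((m - 1) / 2) with h1 | h1
        · rw [vM1 _ (by omega), vM1 _ (by omega), vM1 _ (by omega), bM1 _ (by omega)]
          have h2 := D.solt p
          linear_combination C (-s) * H * h2
        · rw [vM1 _ (by omega), vM1 _ (by omega), vM2 _ (by omega)]
          have h2 := D.solt p
          rcases hm with ⟨hm1, he1⟩ | ⟨hm1, he1⟩
          · obtain rfl : h = p + 2 := by omega
            rw [bM1 _ (by omega)]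
            have h3 := D.th
            rw [he1, C_0] at h3
            rw [h3] at h2
            linear_combination C (-s) * H * h2
          · obtain rfl : h = p + 1 := by omega
            rw [bM2]
            have h3 := D.th
            have h4 := D.th1
            rw [he1, C_1] at h3
            rw [h3] at h2 ⊢
            rw [show p + 1 + 1 = p + 2 by omega] at h4
            rw [C_sub, C_1]
            linear_combination C (-s) * H * h2 + C (-s) * H * h4
    · -- gM
      intro k h1 h2
      exact gp3 k h1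
    · -- bM
      intro k h1 h2
      rw [bA1 _ (by omega), bM1 _ (by omega), bp3 k h1]
    · -- odd
      intro hmo
      rcases hm with ⟨hm1, he1⟩ | ⟨hm1, he1⟩
      · omega
      · rw [bA2, bM2]
        rw [he1] at hκd
        intro hc
        rw [hκd] at hκ
        linarith
    · -- z1
      intro p h1 h2
      rw [KAe p p le_rfl, lm1 _ h2, vA1 _ (by omega)]
      exact van p p h1 h2 le_rfl (by omega)
    · -- z2
      intro p h1 h2
      rw [KAe p (p + 1) (by omega), lm1 _ h2, vA1 _ (by omega)]
      exact van p (p + 1) h1 h2 (by omega) (by omega)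
    · -- y1
      intro k h1 h2
      rw [KAe _ _ le_rfl, KMe _ _ le_rfl, lm2 k h1, vA1 _ (by omega), vM1 _ (by omega), rk k h1,
        ← map_add]
      obtain ⟨φ, hφ, hA⟩ := D.idA k
      rw [← hf, ← hH] at hA
      have e1 : C s * f k * R k + ss β γ k * (C (-s) * (H * t k)) = (C s * φ) * R 0 := by
        rw [C_neg]
        linear_combination C s * hA
      rw [e1]
      exact LR0 _ ((natDegree_C_mul_le _ _).trans hφ)
    · -- y2
      intro k h1 h2
      rw [show n + 1 + k + 1 = n + 1 + (k + 1) by omega, KAe _ _ (by omega), KMe _ _ (by omega),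
        lm2 k h1, vA1 _ (by omega), vM1 _ (by omega), rk (k + 1) (by omega), ← map_add]
      obtain ⟨φ, χ, hφ, hχ, hB⟩ := D.idB k
      rw [← hf, ← hH] at hB
      have e1 : C s * f k * R (k + 1) + ss β γ k * (C (-s) * (H * t (k + 1))) =
          (C s * φ) * R 0 + (C s * χ) * R 1 := by
        rw [C_neg]
        linear_combination C s * hB
      rw [e1, map_add, LR0 _ ((natDegree_C_mul_le _ _).trans hφ),
        LR1 _ ((natDegree_C_mul_le _ _).trans hχ), add_zero]
    · -- ev1
      intro hme
      rcases hm with ⟨hm1, he1⟩ | ⟨hm1, he1⟩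
      · rw [KAe _ _ le_rfl, lm2 h (by omega), vA1 _ le_rfl, rk h (by omega)]
        obtain ⟨φ, hφ, hA⟩ := D.idA h
        have h3 := D.th
        rw [he1, C_0] at h3
        rw [← hf, ← hH, h3] at hA
        have e1 : C s * f h * R h = (C s * φ) * R 0 := by
          linear_combination C s * hA
        rw [e1]
        exact LR0 _ ((natDegree_C_mul_le _ _).trans hφ)
      · omega
    · -- ev2
      intro k hme hk
      rcases hm with ⟨hm1, he1⟩ | ⟨hm1, he1⟩
      · rw [show n + 1 + k + 1 = n + 1 + (k + 1) by omega, KAe _ _ (by omega), lm2 k (by omega),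
          vA1 _ (by omega), rk (k + 1) (by omega)]
        obtain ⟨φ, χ, hφ, hχ, hB⟩ := D.idB k
        have h3 := D.th
        rw [he1, C_0] at h3
        rw [← hf, ← hH, hk, h3] at hB
        have e1 : C s * f k * R (k + 1) = (C s * φ) * R 0 + (C s * χ) * R 1 := by
          rw [hk]
          linear_combination C s * hB
        rw [e1, map_add, LR0 _ ((natDegree_C_mul_le _ _).trans hφ),
          LR1 _ ((natDegree_C_mul_le _ _).trans hχ), add_zero]
      · omega
    · -- od1
      intro hmo
      rcases hm with ⟨hm1, he1⟩ | ⟨hm1, he1⟩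
      · omega
      · rw [KAe _ _ le_rfl, lm2 h (by omega), vA1 _ le_rfl, rk h (by omega)]
        obtain ⟨φ, hφ, hA⟩ := D.idA h
        obtain ⟨φ', χ', hφ', hχ', hD⟩ := D.idD he1
        rw [← hf, ← hH] at hA
        rw [← hH] at hD
        have e1 : C s * f h * R h = (C s * (φ + φ')) * R 0 + (C s * χ') * R 1 := by
          linear_combination C s * hA + C s * hD
        rw [e1, map_add, LR0 _ ((natDegree_C_mul_le _ _).trans
          ((natDegree_add_le _ _).trans (max_le hφ hφ'))),
          LR1 _ ((natDegree_C_mul_le _ _).trans hχ'), add_zero]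
    · -- nz
      by_contra hcon
      push Not at hcon
      have hl1 : ∃ a : ℝ, a ≠ 0 ∧ l 1 = C a := by
        have h1 := ldeg 1 (by omega)
        rw [Nat.sub_self] at h1
        have h2 := eq_C_of_natDegree_le_zero h1
        refine ⟨(l 1).coeff 0, fun h0 => ?_, h2⟩
        rw [h0, C_0] at h2
        exact l1 h2
      obtain ⟨a, ha, hla⟩ := hl1
      have hz := fun_zero (N := n + 1 + h) L (fun d => ρ (n + 1 + h - d)) (by
        intro d hd
        have hdeg := rsol.deg_down gpne (k := n + 1 + h) (by rw [rN]; simp) (by rw [rN]; simp)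
          (by rw [rN1]; exact D.degR.2.2.2.2.le) d (n + 1 + h - d) (by omega)
        refine ⟨hdeg.1, hdeg.2.1, ?_⟩
        have h3 := hcon (n + 1 + h - d) (by omega) (by omega)
        rw [KAe _ _ (by omega), lm1 _ (by omega), vA1 _ (by omega), hla, ← smul_eq_C_mul, map_smul,
          smul_eq_mul] at h3
        exact (mul_eq_zero.1 h3).resolve_left ha)
      exact hLψ (hz _ le_rfl ψ hψ)
  refine F.final (hm.imp And.left And.left) (by omega) hn

end Pool.Agent.NH79.Tad
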