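import Pool.Agent.NH79.Tad.Ker
import Pool.Agent.Results.MP_34deb4_co.LongTails

/-! From folded data to a matrix of the tadpole without the SSP. -/

set_option autoImplicit false

open Finset

namespace Pool.Agent.NH79.Tad

open Pool.Agent.Results.MP_34deb4_co.LongTails

/-- the place of a cycle vertex after folding -/
def site (m i : ℕ) : ℕ := min i (m - i)

/-- the constant `1 / √2` -/
noncomputable def ww : ℝ := Real.sqrt (1 / 2)

theorem ww_sq : ww * ww = 1 / 2 := Real.mul_self_sqrt (by norm_num)
theorem ww_ne : ww ≠ 0 := (Real.sqrt_pos.2 (by norm_num)).ne'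

/-- even weights -/
noncomputable def nu (m i : ℕ) : ℝ := if i = 0 ∨ 2 * i = m then 1 else ww

/-- odd weights -/
noncomputable def sg (m i : ℕ) : ℝ := if i = 0 ∨ 2 * i = m then 0 else if 2 * i < m then ww else -ww

theorem cls {m i : ℕ} (hi : i < m) :
    (i = 0 ∧ site m i = 0 ∧ nu m i = 1 ∧ sg m i = 0) ∨
    (0 < i ∧ 2 * i = m ∧ site m i = i ∧ nu m i = 1 ∧ sg m i = 0) ∨
    (0 < i ∧ 2 * i < m ∧ site m i = i ∧ nu m i = ww ∧ sg m i = ww) ∨
    (m < 2 * i ∧ site m i = m - i ∧ nu m i = ww ∧ sg m i = -ww) := by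
  unfold site nu sg
  rcases Nat.eq_zero_or_pos i with rfl | h0
  · left; simp
  rcases lt_trichotomy (2 * i) m with h | h | h
  · right; right; left
    refine ⟨h0, h, min_eq_left (by omega), ?_, ?_⟩
    · rw [if_neg (by omega)]
    · rw [if_neg (by omega), if_pos h]
  · right; left
    refine ⟨h0, h, min_eq_left (by omega), ?_, ?_⟩
    · rw [if_pos (Or.inr h)]
    · rw [if_pos (Or.inr h)]
  · right; right; right
    refine ⟨h, min_eq_right (by omega), ?_, ?_⟩
    · rw [if_neg (by omega)]
    · rw [if_neg (by omega), if_neg (by omega)]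

theorem sum_nn {m h : ℕ} (hm : 1 ≤ m) (hh : m / 2 = h) (F : ℕ → ℝ) :
    ∑ i ∈ range m, nu m i * nu m i * F (site m i) = ∑ k ∈ range (h + 1), F k := by
  rw [sum_fold m hm, hh]
  refine sum_congr rfl fun k hk => ?_
  rw [mem_range] at hk
  split_ifs with h1
  · obtain ⟨h2, h3⟩ := h1
    rcases cls (show k < m by omega) with c | c | c | c
    · omega
    · omega
    · rcases cls (show m - k < m by omega) with d | d | d | d
      · omega
      · omega
      · omega
      · rw [c.2.2.1, c.2.2.2.1, d.2.1, d.2.2.1, show m - (m - k) = k by omega]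
        linear_combination 2 * F k * ww_sq
    · omega
  · rcases cls (show k < m by omega) with c | c | c | c
    · rw [c.2.1, c.2.2.1, c.1]; ring
    · rw [c.2.2.1, c.2.2.2.1]; ring
    · omega
    · omega

theorem sum_ns {m : ℕ} (hm : 1 ≤ m) (F : ℕ → ℝ) :
    ∑ i ∈ range m, nu m i * sg m i * F (site m i) = 0 := by
  rw [sum_fold m hm]
  refine sum_eq_zero fun k hk => ?_
  rw [mem_range] at hk
  split_ifs with h1
  · obtain ⟨h2, h3⟩ := h1
    rcases cls (show k < m by omega) with c | c | c | c
    · omega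
    · omega
    · rcases cls (show m - k < m by omega) with d | d | d | d
      · omega
      · omega
      · omega
      · rw [c.2.2.1, c.2.2.2.1, c.2.2.2.2, d.2.1, d.2.2.1, d.2.2.2,
          show m - (m - k) = k by omega]
        ring
    · omega
  · rcases cls (show k < m by omega) with c | c | c | c
    · rw [c.2.2.2]; ring
    · rw [c.2.2.2.2]; ring
    · omega
    · omega

theorem sum_ss {m : ℕ} (hm : 1 ≤ m) (F : ℕ → ℝ) :
    ∑ i ∈ range m, sg m i * sg m i * F (site m i) = ∑ k ∈ range ((m - 1) / 2), F (k + 1) := by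
  rw [sum_fold m hm]
  have e : ∀ k ∈ range (m / 2 + 1), (sg m k * sg m k * F (site m k) +
      if 0 < k ∧ 2 * k < m then sg m (m - k) * sg m (m - k) * F (site m (m - k)) else 0) =
      if 0 < k ∧ 2 * k < m then F k else 0 := by
    intro k hk
    rw [mem_range] at hk
    split_ifs with h1
    · obtain ⟨h2, h3⟩ := h1
      rcases cls (show k < m by omega) with c | c | c | c
      · omega
      · omega
      · rcases cls (show m - k < m by omega) with d | d | d | d
        · omega
        · omega
        · omega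
        · rw [c.2.2.1, c.2.2.2.2, d.2.1, d.2.2.2, show m - (m - k) = k by omega]
          linear_combination 2 * F k * ww_sq
      · omega
    · rcases cls (show k < m by omega) with c | c | c | c
      · rw [c.2.2.2]; ring
      · rw [c.2.2.2.2]; ring
      · omega
      · omega
  rw [sum_congr rfl e, ← sum_filter]
  refine (sum_nbij' (fun k => k + 1) (fun k => k - 1) ?_ ?_ ?_ ?_ ?_).symm
  · intro k; simp only [mem_filter, mem_range]; omega
  · intro k; simp only [mem_filter, mem_range]; omega
  · intro k _; simp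
  · intro k; simp only [mem_filter, mem_range]; omega
  · intro k _; rfl

/-- position of a vertex -/
def pos (m n : ℕ) : Fin m ⊕ Fin n → ℕ
  | .inl i => n + 1 + site m i
  | .inr j => n - j

/-- site of a vertex -/
def st (m n : ℕ) : Fin m ⊕ Fin n → ℕ
  | .inl i => site m i
  | .inr _ => 0

/-- even weight of a vertex -/
noncomputable def nv (m n : ℕ) : Fin m ⊕ Fin n → ℝ
  | .inl i => nu m i
  | .inr _ => 1

/-- odd weight of a vertex -/
noncomputable def sv (m n : ℕ) : Fin m ⊕ Fin n → ℝ
  | .inl i => sg m i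
  | .inr _ => 0

theorem bil {m n h : ℕ} (hm : 1 ≤ m) (hh : m / 2 = h) (a b a' b' : ℕ → ℝ) :
    ∑ w : Fin m ⊕ Fin n, (nv m n w * a (pos m n w) + sv m n w * a' (st m n w)) *
      (nv m n w * b (pos m n w) + sv m n w * b' (st m n w)) =
      ∑ s ∈ range (n + 1 + h), a (s + 1) * b (s + 1)
        + ∑ k ∈ range ((m - 1) / 2), a' (k + 1) * b' (k + 1) := by
  rw [Fintype.sum_sum_type]
  simp only [nv, sv, pos, st]
  have e1 : ∑ i : Fin m, (nu m i * a (n + 1 + site m i) + sg m i * a' (site m i)) *
      (nu m i * b (n + 1 + site m i) + sg m i * b' (site m i)) =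
      ∑ k ∈ range (h + 1), a (n + 1 + k) * b (n + 1 + k)
        + ∑ k ∈ range ((m - 1) / 2), a' (k + 1) * b' (k + 1) := by
    have e2 := sum_nn hm hh (fun k => a (n + 1 + k) * b (n + 1 + k))
    have e3 := sum_ns hm (fun k => a (n + 1 + k) * b' k + a' k * b (n + 1 + k))
    have e4 := sum_ss hm (fun k => a' k * b' k)
    rw [← e2, ← e4, ← add_zero (∑ i ∈ range m, nu m i * nu m i *
      (a (n + 1 + site m i) * b (n + 1 + site m i))), ← e3, ← sum_add_distrib, ← sum_add_distrib,
      ← Fin.sum_univ_eq_sum_range (fun i => nu m i * nu m i *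
      (a (n + 1 + site m i) * b (n + 1 + site m i)) + nu m i * sg m i *
      (a (n + 1 + site m i) * b' (site m i) + a' (site m i) * b (n + 1 + site m i)) +
      sg m i * sg m i * (a' (site m i) * b' (site m i))) m]
    refine sum_congr rfl fun i _ => ?_
    ring
  have e5 : ∑ j : Fin n, (1 * a (n - j) + 0 * a' 0) * (1 * b (n - j) + 0 * b' 0) =
      ∑ s ∈ range n, a (s + 1) * b (s + 1) := by
    rw [Fin.sum_univ_eq_sum_range (fun j => (1 * a (n - j) + 0 * a' 0) *
      (1 * b (n - j) + 0 * b' 0)) n, ← sum_range_reflect]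
    refine sum_congr rfl fun j hj => ?_
    rw [mem_range] at hj
    rw [show n - (n - 1 - j) = j + 1 by omega]
    ring
  rw [e1, e5, show n + 1 + h = n + (h + 1) by omega, sum_range_add
    (fun s => a (s + 1) * b (s + 1)) n (h + 1)]
  have e6 : ∑ x ∈ range (h + 1), a (n + x + 1) * b (n + x + 1) =
      ∑ k ∈ range (h + 1), a (n + 1 + k) * b (n + 1 + k) :=
    sum_congr rfl fun x _ => by rw [show n + x + 1 = n + 1 + x by omega]
  rw [e6]
  ring

end Pool.Agent.NH79.Tad
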