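import Pool.Agent.NH79.Tad.Fold

/-! From folded data to a matrix of the tadpole without the SSP. -/

set_option autoImplicit false

open Finset

namespace Pool.Agent.NH79.Tad

open Pool.Agent.Results.MP_34deb4_co.LongTails

/-- folded data -/
structure FD (m n h : ℕ) (βA γA βM γM : ℕ → ℝ) (KA KM : ℕ → ℕ → ℝ) : Prop where
  sA : ∀ p q, KA p q = KA q p
  sM : ∀ p q, KM p q = KM q p
  cA : Comm βA γA (n + 1 + h) KA
  cM : Comm βM γM ((m - 1) / 2) KM
  gA : ∀ p, γA p ≠ 0
  gM : ∀ k, 1 ≤ k → k < h → γA (n + 1 + k) = γM k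
  bM : ∀ k, 1 ≤ k → k < h → βA (n + 1 + k) = βM k
  odd : m = 2 * h + 1 → βA (n + 1 + h) ≠ βM h
  z1 : ∀ p, 1 ≤ p → p ≤ n + 1 → KA p p = 0
  z2 : ∀ p, 1 ≤ p → p ≤ n + 1 → KA p (p + 1) = 0
  y1 : ∀ k, 1 ≤ k → 2 * k < m → KA (n + 1 + k) (n + 1 + k) + KM k k = 0
  y2 : ∀ k, 1 ≤ k → 2 * (k + 1) < m → KA (n + 1 + k) (n + 1 + k + 1) + KM k (k + 1) = 0
  ev1 : m = 2 * h → KA (n + 1 + h) (n + 1 + h) = 0
  ev2 : ∀ k, m = 2 * h → k + 1 = h → KA (n + 1 + k) (n + 1 + k + 1) = 0
  od1 : m = 2 * h + 1 → KA (n + 1 + h) (n + 1 + h) = 0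
  nz : ∃ q, 1 ≤ q ∧ q ≤ n + 1 + h ∧ KA 1 q ≠ 0

/-- the unfolded matrix -/
noncomputable def unf (m n : ℕ) (a b : ℕ → ℕ → ℝ) : Matrix (Fin m ⊕ Fin n) (Fin m ⊕ Fin n) ℝ :=
  Matrix.of fun u v => nv m n u * nv m n v * a (pos m n u) (pos m n v)
    + sv m n u * sv m n v * b (st m n u) (st m n v)

theorem unf_apply (m n : ℕ) (a b : ℕ → ℕ → ℝ) (u v : Fin m ⊕ Fin n) :
    unf m n a b u v = nv m n u * nv m n v * a (pos m n u) (pos m n v)
    + sv m n u * sv m n v * b (st m n u) (st m n v) := rfl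

theorem unf_symm (m n : ℕ) {a b : ℕ → ℕ → ℝ} (ha : ∀ p q, a p q = a q p)
    (hb : ∀ p q, b p q = b q p) : (unf m n a b).IsSymm := by
  ext u v
  rw [Matrix.transpose_apply, unf_apply, unf_apply, ha, hb]
  ring

theorem pos_mem {m n h : ℕ} (hh : m / 2 = h) (u : Fin m ⊕ Fin n) :
    ∃ p, pos m n u = p + 1 ∧ p < n + 1 + h := by
  rcases u with i | j
  · have := i.2
    refine ⟨n + site m i, ?_, ?_⟩
    · simp only [pos]; omega
    · unfold site
      rcases Nat.le_total (i : ℕ) (m - i) with h1 | h1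
      · rw [min_eq_left h1]; omega
      · rw [min_eq_right h1]; omega
  · have := j.2
    refine ⟨n - j - 1, ?_, by omega⟩
    simp only [pos]; omega

theorem st_mem {m n : ℕ} (u : Fin m ⊕ Fin n) (hu : sv m n u ≠ 0) :
    ∃ p, st m n u = p + 1 ∧ p < (m - 1) / 2 := by
  rcases u with i | j
  · rcases cls i.2 with c | c | c | c
    · exact absurd c.2.2.2 hu
    · exact absurd c.2.2.2.2 hu
    · refine ⟨i - 1, ?_, by omega⟩
      simp only [st]; rw [c.2.2.1]; omega
    · have := i.2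
      refine ⟨m - i - 1, ?_, by omega⟩
      simp only [st]; rw [c.2.1]; omega
  · exact absurd rfl hu

variable {m n h : ℕ} {βA γA βM γM : ℕ → ℝ} {KA KM : ℕ → ℕ → ℝ}

theorem FD.comm (F : FD m n h βA γA βM γM KA KM) (hm : 1 ≤ m) (hh : m / 2 = h) :
    unf m n (tri βA γA) (tri βM γM) * unf m n KA KM =
      unf m n KA KM * unf m n (tri βA γA) (tri βM γM) := by
  have gen : ∀ (a b a' b' : ℕ → ℕ → ℝ) (u v : Fin m ⊕ Fin n),
      (unf m n a a' * unf m n b b') u v = nv m n u * nv m n v *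
        ∑ s ∈ range (n + 1 + h), a (pos m n u) (s + 1) * b (s + 1) (pos m n v)
        + sv m n u * sv m n v * ∑ k ∈ range ((m - 1) / 2), a' (st m n u) (k + 1) *
          b' (k + 1) (st m n v) := by
    intro a b a' b' u v
    have := bil (n := n) hm hh (fun s => nv m n u * a (pos m n u) s)
      (fun s => nv m n v * b s (pos m n v)) (fun s => sv m n u * a' (st m n u) s)
      (fun s => sv m n v * b' s (st m n v))
    rw [Matrix.mul_apply]
    rw [mul_sum, mul_sum]
    calc _ = _ := ?_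
      _ = _ := this
      _ = _ := ?_
    · refine sum_congr rfl fun w _ => ?_
      rw [unf_apply, unf_apply]
      ring
    · congr 1
      · refine sum_congr rfl fun w _ => ?_
        ring
      · refine sum_congr rfl fun w _ => ?_
        ring
  ext u v
  rw [gen, gen]
  obtain ⟨p, hp, hp'⟩ := pos_mem hh u
  obtain ⟨q, hq, hq'⟩ := pos_mem hh v
  rw [hp, hq, F.cA p q hp' hq']
  congr 1
  rcases eq_or_ne (sv m n u) 0 with h1 | h1
  · rw [h1]; ring
  rcases eq_or_ne (sv m n v) 0 with h2 | h2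
  · rw [h2]; ring
  obtain ⟨p, hp, hp'⟩ := st_mem u h1
  obtain ⟨q, hq, hq'⟩ := st_mem v h2
  rw [hp, hq, F.cM p q hp' hq']

theorem tri_far {β γ : ℕ → ℝ} {p q : ℕ} (h1 : p ≠ q) (h2 : q ≠ p + 1) (h3 : p ≠ q + 1) :
    tri β γ p q = 0 := by
  unfold tri; rw [if_neg h1, if_neg h2, if_neg h3]

theorem tri_succ {β γ : ℕ → ℝ} {p q : ℕ} (h2 : q = p + 1) : tri β γ p q = γ p := by
  unfold tri; rw [if_neg (by omega), if_pos h2]

theorem tri_diag {β γ : ℕ → ℝ} {p q : ℕ} (h2 : p = q) : tri β γ p q = β p := by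
  unfold tri; rw [if_pos h2]

/-- one ordered case of the entries between cycle vertices at folded distance one -/
theorem FD.step (F : FD m n h βA γA βM γM KA KM) (hh : m / 2 = h) {i j : ℕ} (hi : i < m) (hj : j < m)
    (hs : site m j = site m i + 1) :
    (nu m i * nu m j * tri βA γA (n + 1 + site m i) (n + 1 + site m j)
      + sg m i * sg m j * tri βM γM (site m i) (site m j) ≠ 0 ↔
      (i + 1 = j ∨ j + 1 = i ∨ (i = 0 ∧ j + 1 = m) ∨ (j = 0 ∧ i + 1 = m))) ∧
    ((i + 1 = j ∨ j + 1 = i ∨ (i = 0 ∧ j + 1 = m) ∨ (j = 0 ∧ i + 1 = m)) →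
      nu m i * nu m j * KA (n + 1 + site m i) (n + 1 + site m j)
      + sg m i * sg m j * KM (site m i) (site m j) = 0) := by
  rw [tri_succ (by omega : n + 1 + site m j = n + 1 + site m i + 1), tri_succ hs]
  have hγ := F.gA (n + 1 + site m i)
  rcases cls hi with c | c | c | c
  · obtain ⟨c1, c2, c3, c4⟩ := c
    rw [c2] at hs hγ ⊢
    rw [hs, c3, c4]
    have z := F.z2 (n + 1) (by omega) le_rfl
    constructor
    · rcases cls hj with d | d | d | d
      · omega
      · rw [d.2.2.2.1]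
        simp only [one_mul, zero_mul, add_zero]
        exact ⟨fun _ => by omega, fun _ => hγ⟩
      · rw [d.2.2.2.1]
        simp only [one_mul, zero_mul, add_zero]
        exact ⟨fun _ => by omega, fun _ => mul_ne_zero ww_ne hγ⟩
      · rw [d.2.2.1]
        simp only [one_mul, zero_mul, add_zero]
        exact ⟨fun _ => by omega, fun _ => mul_ne_zero ww_ne hγ⟩
    · intro _
      rw [show n + 1 + (0 + 1) = n + 1 + 1 by omega, add_zero, z]
      ring
  · obtain ⟨c1, c2, c3, c4, c5⟩ := c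
    rw [c3] at hs
    rcases cls hj with d | d | d | d <;> omega
  · obtain ⟨c1, c2, c3, c4, c5⟩ := c
    rw [c3] at hs hγ ⊢
    rw [c4, c5]
    rcases cls hj with d | d | d | d
    · omega
    · obtain ⟨d1, d2, d3, d4, d5⟩ := d
      rw [d4, d5, hs]
      have e := F.ev2 i (by omega) (by omega)
      rw [show n + 1 + (i + 1) = n + 1 + i + 1 by omega, e]
      simp only [mul_one, mul_zero, zero_mul, add_zero]
      exact ⟨⟨fun _ => by omega, fun _ => mul_ne_zero ww_ne hγ⟩, fun _ => trivial⟩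
    · obtain ⟨d1, d2, d3, d4, d5⟩ := d
      rw [d4, d5, hs]
      have e := F.y2 i (by omega) (by omega)
      have e2 := F.gM i (by omega) (by omega)
      have hγ' : γM i ≠ 0 := e2 ▸ hγ
      rw [show n + 1 + (i + 1) = n + 1 + i + 1 by omega, e2]
      rw [show ww * ww * γM i + ww * ww * γM i = γM i by linear_combination 2 * γM i * ww_sq]
      exact ⟨⟨fun _ => by omega, fun _ => hγ'⟩, fun _ => by linear_combination ww * ww * e⟩
    · obtain ⟨d1, d2, d3, d4⟩ := d
      rw [d3, d4, hs]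
      have e2 := F.gM i (by omega) (by omega)
      rw [e2]
      rw [show ww * ww * γM i + ww * -ww * γM i = 0 by ring]
      exact ⟨⟨fun h => absurd rfl h, fun _ => by omega⟩, fun _ => by omega⟩
  · obtain ⟨c1, c2, c3, c4⟩ := c
    rw [c2] at hs hγ ⊢
    rw [c3, c4]
    rcases cls hj with d | d | d | d
    · omega
    · obtain ⟨d1, d2, d3, d4, d5⟩ := d
      rw [d4, d5, hs]
      have e := F.ev2 (m - i) (by omega) (by omega)
      rw [show n + 1 + (m - i + 1) = n + 1 + (m - i) + 1 by omega, e]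
      simp only [mul_one, mul_zero, zero_mul, add_zero]
      exact ⟨⟨fun _ => by omega, fun _ => mul_ne_zero ww_ne hγ⟩, fun _ => trivial⟩
    · obtain ⟨d1, d2, d3, d4, d5⟩ := d
      rw [d4, d5, hs]
      have e2 := F.gM (m - i) (by omega) (by omega)
      rw [e2]
      rw [show ww * ww * γM (m - i) + -ww * ww * γM (m - i) = 0 by ring]
      exact ⟨⟨fun h => absurd rfl h, fun _ => by omega⟩, fun _ => by omega⟩
    · obtain ⟨d1, d2, d3, d4⟩ := d
      rw [d3, d4, hs]
      have e := F.y2 (m - i) (by omega) (by omega)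
      have e2 := F.gM (m - i) (by omega) (by omega)
      have hγ' : γM (m - i) ≠ 0 := e2 ▸ hγ
      rw [show n + 1 + (m - i + 1) = n + 1 + (m - i) + 1 by omega, e2]
      rw [show ww * ww * γM (m - i) + -ww * -ww * γM (m - i) = γM (m - i) by
        linear_combination 2 * γM (m - i) * ww_sq]
      exact ⟨⟨fun _ => by omega, fun _ => hγ'⟩, fun _ => by linear_combination ww * ww * e⟩

end Pool.Agent.NH79.Tad
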