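import Pool.Agent.NH79.Tad.Fold2

/-! From folded data to a matrix of the tadpole without the SSP: end of the proof. -/

set_option autoImplicit false

open Finset

namespace Pool.Agent.NH79.Tad

open Pool.Agent.Results.MP_34deb4_co.LongTails

variable {m n h : ℕ} {βA γA βM γM : ℕ → ℝ} {KA KM : ℕ → ℕ → ℝ}

/-- two different cycle vertices with the same folded place -/
theorem FD.same (F : FD m n h βA γA βM γM KA KM) (hm : m = 2 * h ∨ m = 2 * h + 1) {i j : ℕ}
    (hi : i < m) (hj : j < m) (hij : i ≠ j) (hs : site m i = site m j) :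
    (nu m i * nu m j * tri βA γA (n + 1 + site m i) (n + 1 + site m j)
      + sg m i * sg m j * tri βM γM (site m i) (site m j) ≠ 0 ↔
      (i + 1 = j ∨ j + 1 = i ∨ (i = 0 ∧ j + 1 = m) ∨ (j = 0 ∧ i + 1 = m))) ∧
    ((i + 1 = j ∨ j + 1 = i ∨ (i = 0 ∧ j + 1 = m) ∨ (j = 0 ∧ i + 1 = m)) →
      nu m i * nu m j * KA (n + 1 + site m i) (n + 1 + site m j)
      + sg m i * sg m j * KM (site m i) (site m j) = 0) := by
  rw [tri_diag (by omega : n + 1 + site m i = n + 1 + site m j), tri_diag hs]
  rcases cls hi with c | c | c | c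
  · rcases cls hj with d | d | d | d <;> omega
  · rcases cls hj with d | d | d | d <;> omega
  · obtain ⟨c1, c2, c3, c4, c5⟩ := c
    rcases cls hj with d | d | d | d
    · omega
    · omega
    · omega
    · obtain ⟨d1, d2, d3, d4⟩ := d
      rw [← hs, c3, c4, c5, d3, d4]
      rw [c3, d2] at hs
      rcases Nat.lt_or_ge i h with h1 | h1
      · rw [F.bM i c1 h1, show ww * ww * βM i + ww * -ww * βM i = 0 by ring]
        exact ⟨⟨fun h => absurd rfl h, fun _ => by omega⟩, fun _ => by omega⟩
      · have hmo : m = 2 * h + 1 := by omega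
        have hih : i = h := by omega
        have e1 := F.odd hmo
        have e2 := F.od1 hmo
        have e3 := F.y1 h (by omega) (by omega)
        rw [e2] at e3
        rw [hih]
        refine ⟨⟨fun _ => by omega, fun _ => ?_⟩, fun _ => ?_⟩
        · rw [show ww * ww * βA (n + 1 + h) + ww * -ww * βM h =
            (βA (n + 1 + h) - βM h) * (1 / 2) by linear_combination (βA (n + 1 + h) - βM h) * ww_sq]
          exact mul_ne_zero (sub_ne_zero.2 e1) (by norm_num)
        · rw [e2]; linear_combination -(ww * ww) * e3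
  · obtain ⟨c1, c2, c3, c4⟩ := c
    rcases cls hj with d | d | d | d
    · omega
    · omega
    · obtain ⟨d1, d2, d3, d4, d5⟩ := d
      rw [hs, c3, c4, d3, d4, d5]
      rw [c2, d3] at hs
      rcases Nat.lt_or_ge j h with h1 | h1
      · rw [F.bM j d1 h1, show ww * ww * βM j + -ww * ww * βM j = 0 by ring]
        exact ⟨⟨fun h => absurd rfl h, fun _ => by omega⟩, fun _ => by omega⟩
      · have hmo : m = 2 * h + 1 := by omega
        have hih : j = h := by omega
        have e1 := F.odd hmo
        have e2 := F.od1 hmo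
        have e3 := F.y1 h (by omega) (by omega)
        rw [e2] at e3
        rw [hih]
        refine ⟨⟨fun _ => by omega, fun _ => ?_⟩, fun _ => ?_⟩
        · rw [show ww * ww * βA (n + 1 + h) + -ww * ww * βM h =
            (βA (n + 1 + h) - βM h) * (1 / 2) by linear_combination (βA (n + 1 + h) - βM h) * ww_sq]
          exact mul_ne_zero (sub_ne_zero.2 e1) (by norm_num)
        · rw [e2]; linear_combination -(ww * ww) * e3
    · omega

/-- cycle vertices -/
theorem FD.cyc (F : FD m n h βA γA βM γM KA KM) (hm : m = 2 * h ∨ m = 2 * h + 1) {i j : ℕ}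
    (hi : i < m) (hj : j < m) (hij : i ≠ j) :
    (nu m i * nu m j * tri βA γA (n + 1 + site m i) (n + 1 + site m j)
      + sg m i * sg m j * tri βM γM (site m i) (site m j) ≠ 0 ↔
      (i + 1 = j ∨ j + 1 = i ∨ (i = 0 ∧ j + 1 = m) ∨ (j = 0 ∧ i + 1 = m))) ∧
    ((i + 1 = j ∨ j + 1 = i ∨ (i = 0 ∧ j + 1 = m) ∨ (j = 0 ∧ i + 1 = m)) →
      nu m i * nu m j * KA (n + 1 + site m i) (n + 1 + site m j)
      + sg m i * sg m j * KM (site m i) (site m j) = 0) := by
  have hh : m / 2 = h := by omega
  rcases eq_or_ne (site m i) (site m j) with h1 | h1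
  · exact F.same hm hi hj hij h1
  rcases eq_or_ne (site m j) (site m i + 1) with h2 | h2
  · exact F.step hh hi hj h2
  rcases eq_or_ne (site m i) (site m j + 1) with h3 | h3
  · obtain ⟨a, b⟩ := F.step hh hj hi h3
    rw [tri_symm βA, tri_symm βM, F.sA (n + 1 + site m i), F.sM (site m i),
      mul_comm (nu m i), mul_comm (sg m i)]
    refine ⟨a.trans (by omega), fun h => b (by omega)⟩
  · rw [tri_far (by omega) (by omega) (by omega), tri_far h1 h2 h3]
    have : ¬ (i + 1 = j ∨ j + 1 = i ∨ (i = 0 ∧ j + 1 = m) ∨ (j = 0 ∧ i + 1 = m)) := by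
      rcases cls hi with c | c | c | c <;> rcases cls hj with d | d | d | d <;> omega
    exact ⟨⟨fun h => absurd (by ring) h, fun h => absurd h this⟩, fun h => absurd h this⟩

theorem FD.final (F : FD m n h βA γA βM γM KA KM) (hm : m = 2 * h ∨ m = 2 * h + 1) (hm3 : 3 ≤ m)
    (hn : 1 ≤ n) : ¬ IsSSPGraph (tadpole m n) := by
  have hh : m / 2 = h := by omega
  set A := unf m n (tri βA γA) (tri βM γM) with hA
  set X := unf m n KA KM with hX
  have hAs : A.IsSymm := unf_symm m n (tri_symm _ _) (tri_symm _ _)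
  have hXs : X.IsSymm := unf_symm m n F.sA F.sM
  -- entries between different vertices
  have ent : ∀ u v, u ≠ v → (A u v ≠ 0 ↔ (tadpole m n).Adj u v) ∧
      ((tadpole m n).Adj u v → X u v = 0) := by
    have pc : ∀ (i : Fin n) (j : Fin m), (A (.inr i) (.inl j) ≠ 0 ↔
        (tadpole m n).Adj (.inr i) (.inl j)) ∧
        ((tadpole m n).Adj (.inr i) (.inl j) → X (.inr i) (.inl j) = 0) := by
      intro i j
      have hi := i.2
      have hj := j.2
      rw [hA, hX, unf_apply, unf_apply, adj_pc]
      simp only [nv, sv, pos, st, one_mul, zero_mul, add_zero]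
      rcases eq_or_ne (i : ℕ) 0 with h1 | h1
      · rcases eq_or_ne (j : ℕ) 0 with h2 | h2
        · have e1 : site m j = 0 := by rw [h2]; rfl
          have e2 : nu m j = 1 := by unfold nu; rw [if_pos (Or.inl h2)]
          rw [e1, e2, h1, tri_succ (by omega), Nat.sub_zero]
          refine ⟨⟨fun _ => ⟨rfl, h2⟩, fun _ => ?_⟩, fun _ => ?_⟩
          · rw [one_mul]; exact F.gA n
          · rw [add_zero, F.z2 n hn (by omega)]; ring
        · have e1 : 0 < site m j := by
            rcases cls hj with d | d | d | d <;> omega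
          rw [tri_far (by omega) (by omega) (by omega)]
          exact ⟨⟨fun h => absurd (by ring) h, fun h => absurd h.2 h2⟩, fun h => absurd h.2 h2⟩
      · rw [tri_far (by omega) (by omega) (by omega)]
        exact ⟨⟨fun h => absurd (by ring) h, fun h => absurd h.1 h1⟩, fun h => absurd h.1 h1⟩
    rintro (i | i) (j | j) huv
    · have hi := i.2
      have hj := j.2
      have hij : (i : ℕ) ≠ j := fun h => huv (by rw [Fin.ext h])
      rw [hA, hX, unf_apply, unf_apply, adj_cc hm3]
      exact F.cyc hm hi hj hij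
    · obtain ⟨a, b⟩ := pc j i
      rw [← hAs.apply, ← hXs.apply, SimpleGraph.adj_comm]
      exact ⟨a, b⟩
    · exact pc i j
    · have hi := i.2
      have hj := j.2
      have hij : (i : ℕ) ≠ j := fun h => huv (by rw [Fin.ext h])
      rw [hA, hX, unf_apply, unf_apply, adj_pp]
      simp only [nv, sv, pos, st, one_mul, zero_mul, add_zero]
      rcases eq_or_ne ((j : ℕ) + 1) i with h1 | h1
      · rw [tri_succ (by omega)]
        refine ⟨⟨fun _ => Or.inr h1, fun _ => F.gA _⟩, fun _ => ?_⟩
        rw [show n - (j : ℕ) = n - i + 1 by omega]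
        exact F.z2 _ (by omega) (by omega)
      rcases eq_or_ne ((i : ℕ) + 1) j with h2 | h2
      · rw [tri_symm, tri_succ (by omega), F.sA]
        refine ⟨⟨fun _ => Or.inl h2, fun _ => F.gA _⟩, fun _ => ?_⟩
        rw [show n - (i : ℕ) = n - j + 1 by omega]
        exact F.z2 _ (by omega) (by omega)
      · rw [tri_far (by omega) (by omega) (by omega)]
        exact ⟨⟨fun h => absurd rfl h, fun h => by omega⟩, fun h => by omega⟩
  -- diagonal of `X`
  have dia : ∀ u, X u u = 0 := by
    rintro (i | i)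
    · have hi := i.2
      rw [hX, unf_apply]
      simp only [nv, sv, pos, st]
      rcases cls hi with c | c | c | c
      · rw [c.2.1, c.2.2.1, c.2.2.2, add_zero, F.z1 (n + 1) (by omega) le_rfl]; ring
      · rw [c.2.2.1, c.2.2.2.1, c.2.2.2.2, show (i : ℕ) = h by omega, F.ev1 (by omega)]; ring
      · rw [c.2.2.1, c.2.2.2.1, c.2.2.2.2]
        linear_combination ww * ww * F.y1 i (by omega) (by omega)
      · rw [c.2.1, c.2.2.1, c.2.2.2]
        linear_combination ww * ww * F.y1 (m - i) (by omega) (by omega)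
    · have hi := i.2
      rw [hX, unf_apply]
      simp only [nv, sv, pos, st]
      rw [F.z1 (n - i) (by omega) (by omega)]; ring
  intro hG
  have hIn : InS (tadpole m n) A := ⟨hAs, fun u v huv => (ent u v huv).1⟩
  have hX0 := hG A hIn X hXs (by
    intro u v
    rcases eq_or_ne u v with rfl | huv
    · rw [dia u, mul_zero]
    · by_cases h1 : A u v = 0
      · rw [h1, zero_mul]
      · rw [(ent u v huv).2 ((ent u v huv).1.1 h1), mul_zero]) dia (F.comm (by omega) hh)
  -- `X` is not zero
  obtain ⟨q, q1, q2, q3⟩ := F.nz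
  obtain ⟨v, hv1, hv2⟩ : ∃ v : Fin m ⊕ Fin n, pos m n v = q ∧ nv m n v ≠ 0 := by
    rcases Nat.lt_or_ge n q with h1 | h1
    · obtain ⟨k, rfl⟩ : ∃ k, q = n + 1 + k := ⟨q - (n + 1), by omega⟩
      have hk : k < m := by omega
      refine ⟨.inl ⟨k, hk⟩, ?_, ?_⟩
      · simp only [pos]
        congr 1
        rcases cls hk with c | c | c | c <;> omega
      · simp only [nv]
        rcases cls hk with c | c | c | c
        · rw [c.2.2.1]; exact one_ne_zero
        · rw [c.2.2.2.1]; exact one_ne_zero
        · rw [c.2.2.2.1]; exact ww_ne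
        · rw [c.2.2.1]; exact ww_ne
    · refine ⟨.inr ⟨n - q, by omega⟩, ?_, ?_⟩
      · simp only [pos]; omega
      · simp only [nv]; exact one_ne_zero
  have hu : X (.inr ⟨n - 1, by omega⟩) v = 0 := by rw [hX0]; rfl
  rw [hX, unf_apply, hv1] at hu
  simp only [nv, sv, pos, st, one_mul, zero_mul, add_zero] at hu
  rw [show n - (n - 1) = 1 by omega] at hu
  exact (mul_ne_zero hv2 q3) hu

end Pool.Agent.NH79.Tad
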