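import Mathlib

/-! Matrices commuting with a Jacobi matrix; folding of a cycle. -/

set_option autoImplicit false

open Finset

namespace Pool.Agent.NH79.Tad

/-- the Jacobi matrix with diagonal `β` and bonds `γ` (`γ p` joins `p` and `p + 1`) -/
def tri (β γ : ℕ → ℝ) (p q : ℕ) : ℝ :=
  if p = q then β p else if q = p + 1 then γ p else if p = q + 1 then γ q else 0

theorem tri_symm (β γ : ℕ → ℝ) (p q : ℕ) : tri β γ p q = tri β γ q p := by
  unfold tri
  rcases eq_or_ne p q with rfl | h
  · rfl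
  · rw [if_neg h, if_neg h.symm]
    split_ifs <;> first | rfl | omega

/-- row sums -/
theorem tri_sum (β γ : ℕ → ℝ) (N : ℕ) (G : ℕ → ℝ) (h0 : G 0 = 0) (hN : G (N + 1) = 0) {p : ℕ}
    (hp : p < N) : ∑ s ∈ range N, tri β γ (p + 1) (s + 1) * G (s + 1) =
      γ p * G p + β (p + 1) * G (p + 1) + γ (p + 1) * G (p + 2) := by
  have e : ∀ s, tri β γ (p + 1) (s + 1) * G (s + 1) =
      (if s + 1 = p then γ p * G p else 0) + (if s = p then β (p + 1) * G (p + 1) else 0)
        + (if s = p + 1 then γ (p + 1) * G (p + 2) else 0) := by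
    intro s
    unfold tri
    rcases eq_or_ne s p with rfl | h1
    · simp
    rcases eq_or_ne s (p + 1) with rfl | h2
    · rw [if_neg (by omega), if_pos rfl, if_neg (by omega), if_neg (by omega), if_pos rfl]
      ring
    rcases eq_or_ne (s + 1) p with h3 | h3
    · subst h3
      rw [if_neg (by omega), if_neg (by omega), if_pos rfl, if_pos rfl, if_neg (by omega),
        if_neg (by omega)]
      ring
    · rw [if_neg (by omega), if_neg (by omega), if_neg (by omega), if_neg h3, if_neg h1, if_neg h2]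
      simp
  rw [sum_congr rfl fun s _ => e s, sum_add_distrib, sum_add_distrib, sum_ite_eq', sum_ite_eq',
    if_pos (mem_range.2 hp)]
  have e1 : ∑ s ∈ range N, (if s + 1 = p then γ p * G p else 0) = γ p * G p := by
    rcases Nat.eq_zero_or_pos p with rfl | h
    · rw [h0, mul_zero]; simp
    · obtain ⟨k, rfl⟩ : ∃ k, p = k + 1 := ⟨p - 1, by omega⟩
      have : ∀ s, (if s + 1 = k + 1 then γ (k + 1) * G (k + 1) else 0) =
          (if s = k then γ (k + 1) * G (k + 1) else 0) := by
        intro s; simp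
      rw [sum_congr rfl fun s _ => this s, sum_ite_eq', if_pos (mem_range.2 (by omega))]
  rw [e1]
  congr 1
  split_ifs with h
  · rfl
  · rw [mem_range] at h
    obtain rfl : N = p + 1 := by omega
    rw [show p + 2 = p + 1 + 1 by omega, hN, mul_zero]

/-- `K` commutes with the Jacobi matrix on the places `1, …, N` -/
def Comm (β γ : ℕ → ℝ) (N : ℕ) (K : ℕ → ℕ → ℝ) : Prop :=
  ∀ p q, p < N → q < N → ∑ s ∈ range N, tri β γ (p + 1) (s + 1) * K (s + 1) (q + 1) =
    ∑ s ∈ range N, K (p + 1) (s + 1) * tri β γ (s + 1) (q + 1)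

theorem comm_of_lt {β γ : ℕ → ℝ} {N : ℕ} {K : ℕ → ℕ → ℝ} (hs : ∀ p q, K p q = K q p)
    (h0 : ∀ q, K 0 q = 0) (hN : ∀ q, K (N + 1) q = 0)
    (h : ∀ p q, p < q → q < N → γ p * K p (q + 1) + β (p + 1) * K (p + 1) (q + 1)
      + γ (p + 1) * K (p + 2) (q + 1) = γ q * K (p + 1) q + β (q + 1) * K (p + 1) (q + 1)
      + γ (q + 1) * K (p + 1) (q + 2)) : Comm β γ N K := by
  have key : ∀ p q, p < N → q < N → γ p * K p (q + 1) + β (p + 1) * K (p + 1) (q + 1)
      + γ (p + 1) * K (p + 2) (q + 1) = γ q * K (p + 1) q + β (q + 1) * K (p + 1) (q + 1)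
      + γ (q + 1) * K (p + 1) (q + 2) := by
    intro p q hp hq
    rcases lt_trichotomy p q with h1 | h1 | h1
    · exact h p q h1 hq
    · subst h1
      rw [hs p (p + 1), hs (p + 2) (p + 1)]
    · have := h q p h1 hp
      rw [hs (p + 1) q, hs (p + 1) (q + 1), hs (p + 1) (q + 2), hs p (q + 1), hs (p + 2) (q + 1)]
      linear_combination -this
  intro p q hp hq
  have e1 := tri_sum β γ N (fun s => K s (q + 1)) (h0 _) (hN _) hp
  have e2 := tri_sum β γ N (fun s => K (p + 1) s) (by rw [hs]; exact h0 _) (by rw [hs]; exact hN _) hq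
  rw [e1, key p q hp hq]
  rw [sum_congr rfl fun s _ => by rw [mul_comm, tri_symm], e2]

open Polynomial in
/-- commuting matrices from solutions and a functional -/
theorem comm_ker (L : ℝ[X] →ₗ[ℝ] ℝ) {β γ : ℕ → ℝ} {N : ℕ} {u v : ℕ → ℝ[X]} (hu0 : u 0 = 0)
    (hvN : ∀ q, N < q → v q = 0)
    (hu : ∀ p, p + 1 < N → X * u (p + 1) = C (γ p) * u p + C (β (p + 1)) * u (p + 1)
      + C (γ (p + 1)) * u (p + 2))
    (hv : ∀ p, 0 < p → p + 1 ≤ N → X * v (p + 1) = C (γ p) * v p + C (β (p + 1)) * v (p + 1)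
      + C (γ (p + 1)) * v (p + 2)) :
    Comm β γ N (fun p q => L (u (min p q) * v (max p q))) := by
  refine comm_of_lt ?_ ?_ ?_ ?_
  · intro p q
    rw [min_comm, max_comm]
  · intro q
    rw [Nat.zero_min, hu0, zero_mul, map_zero]
  · intro q
    rw [hvN _ (lt_of_lt_of_le (Nat.lt_succ_self N) (le_max_left _ _)), mul_zero, map_zero]
  · intro p q hpq hq
    have h1 := hu p (by omega)
    have h2 := hv q (by omega) (by omega)
    rw [min_eq_left (by omega : p ≤ q + 1), min_eq_left (by omega : p + 1 ≤ q + 1),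
      min_eq_left (by omega : p + 2 ≤ q + 1), min_eq_left (by omega : p + 1 ≤ q),
      min_eq_left (by omega : p + 1 ≤ q + 2), max_eq_right (by omega : p ≤ q + 1),
      max_eq_right (by omega : p + 1 ≤ q + 1), max_eq_right (by omega : p + 2 ≤ q + 1),
      max_eq_right (by omega : p + 1 ≤ q), max_eq_right (by omega : p + 1 ≤ q + 2)]
    have e1 : L (X * u (p + 1) * v (q + 1)) = γ p * L (u p * v (q + 1))
        + β (p + 1) * L (u (p + 1) * v (q + 1)) + γ (p + 1) * L (u (p + 2) * v (q + 1)) := by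
      rw [h1, ← smul_eq_mul (γ p), ← smul_eq_mul (β (p + 1)), ← smul_eq_mul (γ (p + 1)),
        ← map_smul, ← map_smul, ← map_smul, ← map_add, ← map_add]
      congr 1
      simp only [smul_eq_C_mul]
      ring
    have e2 : L (X * u (p + 1) * v (q + 1)) = γ q * L (u (p + 1) * v q)
        + β (q + 1) * L (u (p + 1) * v (q + 1)) + γ (q + 1) * L (u (p + 1) * v (q + 2)) := by
      rw [← smul_eq_mul (γ q), ← smul_eq_mul (β (q + 1)), ← smul_eq_mul (γ (q + 1)),
        ← map_smul, ← map_smul, ← map_smul, ← map_add, ← map_add]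
      congr 1
      simp only [smul_eq_C_mul]
      linear_combination u (p + 1) * h2
    rw [← e1, e2]

/-- folding a sum over a cycle -/
theorem sum_fold (m : ℕ) (hm : 1 ≤ m) (f : ℕ → ℝ) : ∑ i ∈ range m, f i =
    ∑ k ∈ range (m / 2 + 1), (f k + if 0 < k ∧ 2 * k < m then f (m - k) else 0) := by
  rw [sum_add_distrib]
  have h1 : range m = range (m / 2 + 1) ∪ Ico (m / 2 + 1) m := by
    ext x; simp only [mem_union, mem_range, mem_Ico]; omega
  have h2 : Disjoint (range (m / 2 + 1)) (Ico (m / 2 + 1) m) := by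
    rw [disjoint_left]; intro x; simp only [mem_range, mem_Ico]; omega
  rw [h1, sum_union h2]
  congr 1
  rw [← sum_filter]
  refine sum_nbij' (fun i => m - i) (fun k => m - k) ?_ ?_ ?_ ?_ ?_
  · intro i; simp only [mem_Ico, mem_filter, mem_range]; omega
  · intro i; simp only [mem_Ico, mem_filter, mem_range]; omega
  · intro i; simp only [mem_Ico]; omega
  · intro i; simp only [mem_filter, mem_range]; omega
  · intro i hi
    simp only [mem_Ico] at hi
    congr 1
    omega

end Pool.Agent.NH79.Tad
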