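import Pool.Agent.NH79.Tad.Setup
import Pool.Agent.NH79.Tad.Fold3

/-! Tadpoles with short tails are not SSP graphs. -/

set_option autoImplicit false

open Polynomial

namespace Pool.Agent.NH79.Tad

open Pool.Agent.Results.MP_34deb4_co.LongTails

/-- degrees of solutions going down -/
theorem Sol.deg_down {β γ : ℕ → ℝ} {y : ℕ → ℝ[X]} (hγ : ∀ j, γ j ≠ 0) (hy : Sol β γ y) {k : ℕ}
    (h0 : (y k).natDegree ≤ 0) (h0' : (y k).coeff 0 ≠ 0) (h1 : (y (k + 1)).natDegree ≤ 0) (d : ℕ) :
    ∀ i, i + d = k → (y i).natDegree ≤ d ∧ (y i).coeff d ≠ 0 ∧ (y (i + 1)).natDegree ≤ d := by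
  induction d with
  | zero =>
    intro i hi
    obtain rfl : i = k := by omega
    exact ⟨h0, h0', h1⟩
  | succ d ih =>
    intro i hi
    obtain ⟨a1, a2, a3⟩ := ih (i + 1) (by omega)
    have h := hy i
    have e : y i = C (γ i)⁻¹ * (X * y (i + 1) - C (β (i + 1)) * y (i + 1)
        - C (γ (i + 1)) * y (i + 2)) := by
      have h' : C (γ i) * C (γ i)⁻¹ = (1 : ℝ[X]) := by
        rw [← C_mul, mul_inv_cancel₀ (hγ _), C_1]
      linear_combination -C (γ i)⁻¹ * h - y i * h'
    rw [show i + 1 + 1 = i + 2 by omega] at a3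
    have b1 : (X * y (i + 1)).natDegree ≤ d + 1 := by
      refine natDegree_mul_le.trans ?_
      rw [natDegree_X]; omega
    have b2 : (C (β (i + 1)) * y (i + 1)).natDegree ≤ d := (natDegree_C_mul_le _ _).trans a1
    have b3 : (C (γ (i + 1)) * y (i + 2)).natDegree ≤ d := (natDegree_C_mul_le _ _).trans a3
    refine ⟨?_, ?_, a1.trans (Nat.le_succ d)⟩
    · rw [e]
      refine (natDegree_C_mul_le _ _).trans ?_
      refine (natDegree_sub_le _ _).trans (max_le ((natDegree_sub_le _ _).trans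
        (max_le b1 (b2.trans (by omega)))) (b3.trans (by omega)))
    · rw [e, coeff_C_mul, coeff_sub, coeff_sub, coeff_X_mul,
        coeff_eq_zero_of_natDegree_lt (lt_of_le_of_lt b2 (Nat.lt_succ_self d)),
        coeff_eq_zero_of_natDegree_lt (lt_of_le_of_lt b3 (Nat.lt_succ_self d)), sub_zero, sub_zero]
      exact mul_ne_zero (inv_ne_zero (hγ i)) a2

/-- combinations going down -/
theorem Sol.comb_down {β γ : ℕ → ℝ} {y : ℕ → ℝ[X]} (hγ : ∀ j, γ j ≠ 0) (hy : Sol β γ y) {k : ℕ}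
    (d : ℕ) : ∀ i, i + d = k →
      (∃ a b : ℝ[X], a.natDegree ≤ d ∧ b.natDegree ≤ d ∧ y i = a * y k + b * y (k + 1)) ∧
      (∃ a b : ℝ[X], a.natDegree ≤ d ∧ b.natDegree ≤ d ∧ y (i + 1) = a * y k + b * y (k + 1)) := by
  induction d with
  | zero =>
    intro i hi
    obtain rfl : i = k := by omega
    exact ⟨⟨1, 0, by simp, by simp, by ring⟩, ⟨0, 1, by simp, by simp, by ring⟩⟩
  | succ d ih =>
    intro i hi
    obtain ⟨⟨a, b, ha, hb, hab⟩, ⟨a', b', ha', hb', hab'⟩⟩ := ih (i + 1) (by omega)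
    have h := hy i
    have e : y i = C (γ i)⁻¹ * (X * y (i + 1) - C (β (i + 1)) * y (i + 1)
        - C (γ (i + 1)) * y (i + 2)) := by
      have h' : C (γ i) * C (γ i)⁻¹ = (1 : ℝ[X]) := by
        rw [← C_mul, mul_inv_cancel₀ (hγ _), C_1]
      linear_combination -C (γ i)⁻¹ * h - y i * h'
    rw [show i + 1 + 1 = i + 2 by omega] at hab'
    have dd : ∀ p q : ℝ[X], p.natDegree ≤ d → q.natDegree ≤ d →
        (C (γ i)⁻¹ * (X * p - C (β (i + 1)) * p - C (γ (i + 1)) * q)).natDegree ≤ d + 1 := by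
      intro p q hp hq
      refine (natDegree_C_mul_le _ _).trans ?_
      have b1 : (X * p).natDegree ≤ d + 1 := by
        refine natDegree_mul_le.trans ?_
        rw [natDegree_X]; omega
      have b2 : (C (β (i + 1)) * p).natDegree ≤ d := (natDegree_C_mul_le _ _).trans hp
      have b3 : (C (γ (i + 1)) * q).natDegree ≤ d := (natDegree_C_mul_le _ _).trans hq
      exact (natDegree_sub_le _ _).trans (max_le ((natDegree_sub_le _ _).trans
        (max_le b1 (b2.trans (by omega)))) (b3.trans (by omega)))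
    refine ⟨⟨C (γ i)⁻¹ * (X * a - C (β (i + 1)) * a - C (γ (i + 1)) * a'),
      C (γ i)⁻¹ * (X * b - C (β (i + 1)) * b - C (γ (i + 1)) * b'), dd _ _ ha ha', dd _ _ hb hb',
      ?_⟩, ⟨a, b, ha.trans (Nat.le_succ d), hb.trans (Nat.le_succ d), hab⟩⟩
    rw [e, hab, hab']
    ring

/-- the functional -/
theorem exists_fun {n N : ℕ} (hN : 2 * n + 2 < N) (a b : ℝ[X]) :
    ∃ L : ℝ[X] →ₗ[ℝ] ℝ, (∀ φ : ℝ[X], φ.natDegree ≤ n → L (φ * a) = 0) ∧
      (∀ φ : ℝ[X], φ.natDegree ≤ n → L (φ * b) = 0) ∧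
      ∃ ψ : ℝ[X], ψ.degree < N ∧ L ψ ≠ 0 := by
  classical
  set T : Finset ℝ[X] := (Finset.range (n + 1)).image (fun k => X ^ k * a) ∪
    (Finset.range (n + 1)).image (fun k => X ^ k * b) with hT
  have hTc : T.card ≤ 2 * n + 2 := by
    refine (Finset.card_union_le _ _).trans ?_
    have h1 := Finset.card_image_le (s := Finset.range (n + 1)) (f := fun k => X ^ k * a)
    have h2 := Finset.card_image_le (s := Finset.range (n + 1)) (f := fun k => X ^ k * b)
    rw [Finset.card_range] at h1 h2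
    omega
  set W := Submodule.span ℝ (T : Set ℝ[X]) with hW
  have hex : ∃ ψ ∈ degreeLT ℝ N, ψ ∉ W := by
    by_contra hcon
    push Not at hcon
    have h1 : degreeLT ℝ N ≤ W := hcon
    have : Module.Finite ℝ W := Module.Finite.span_of_finite ℝ T.finite_toSet
    have h2 := Submodule.finrank_mono h1
    have h3 : Module.finrank ℝ (degreeLT ℝ N) = N := by
      rw [(degreeLTEquiv ℝ N).finrank_eq]
      simp
    have h4 : Module.finrank ℝ W ≤ T.card := finrank_span_finset_le_card T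
    omega
  obtain ⟨ψ, hψ, hψW⟩ := hex
  obtain ⟨L, hL, hLW⟩ := Submodule.exists_le_ker_of_notMem hψW
  have lin : ∀ c : ℝ[X], (∀ k, k < n + 1 → L (X ^ k * c) = 0) → ∀ φ : ℝ[X], φ.natDegree ≤ n →
      L (φ * c) = 0 := by
    intro c hc φ hφ
    rw [φ.as_sum_range' (n + 1) (by omega), Finset.sum_mul, map_sum]
    refine Finset.sum_eq_zero fun k hk => ?_
    rw [← C_mul_X_pow_eq_monomial, mul_assoc, ← smul_eq_C_mul, map_smul,
      hc k (Finset.mem_range.1 hk), smul_zero]
  refine ⟨L, lin a ?_, lin b ?_, ψ, mem_degreeLT.1 hψ, hL⟩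
  · intro k hk
    refine hLW (Submodule.subset_span ?_)
    rw [hT, Finset.coe_union]
    left
    exact Finset.mem_coe.2 (Finset.mem_image.2 ⟨k, Finset.mem_range.2 hk, rfl⟩)
  · intro k hk
    refine hLW (Submodule.subset_span ?_)
    rw [hT, Finset.coe_union]
    right
    exact Finset.mem_coe.2 (Finset.mem_image.2 ⟨k, Finset.mem_range.2 hk, rfl⟩)

/-- a functional vanishing on polynomials of all degrees `< N` -/
theorem fun_zero {N : ℕ} (L : ℝ[X] →ₗ[ℝ] ℝ) (y : ℕ → ℝ[X])
    (hd : ∀ d, d < N → (y d).natDegree ≤ d ∧ (y d).coeff d ≠ 0 ∧ L (y d) = 0) :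
    ∀ d, d ≤ N → ∀ φ : ℝ[X], φ.degree < d → L φ = 0 := by
  intro d
  induction d with
  | zero =>
    intro _ φ hφ
    have : φ = 0 := by
      by_contra hne
      rw [degree_eq_natDegree hne, Nat.cast_zero] at hφ
      exact absurd hφ (not_lt.2 (by exact_mod_cast Nat.zero_le _))
    rw [this, map_zero]
  | succ d ih =>
    intro hd' φ hφ
    obtain ⟨a1, a2, a3⟩ := hd d (by omega)
    have h1 : L (φ - C (φ.coeff d / (y d).coeff d) * y d) = 0 := by
      refine ih (by omega) _ ?_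
      rw [degree_lt_iff_coeff_zero]
      intro m hm
      rw [coeff_sub, coeff_C_mul]
      rcases Nat.lt_or_ge d m with h | h
      · rw [coeff_eq_zero_of_natDegree_lt (lt_of_le_of_lt a1 h), mul_zero, sub_zero]
        refine coeff_eq_zero_of_degree_lt (lt_of_lt_of_le hφ ?_)
        exact_mod_cast h
      · obtain rfl : m = d := by omega
        field_simp
        ring
    rw [map_sub, ← smul_eq_C_mul, map_smul, a3, smul_zero, sub_zero] at h1
    exact h1

end Pool.Agent.NH79.Tad
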