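import Pool.Agent.NH79.Tad.Cheb

/-! Positivity at the nodes and the existence of the tail. -/

set_option autoImplicit false

open Polynomial

namespace Pool.Agent.NH79.Tad

section
variable {n : ℕ} {r e : ℝ}

theorem gb_per (j : ℕ) : gb n r e (j + (n + 1)) = gb n r e j := by
  unfold gb
  rw [Nat.add_mod_right]

theorem bb_per (j : ℕ) : bb n r e (j + (n + 1)) = bb n r e j := by
  unfold bb
  rw [Nat.add_mod_right]

/-- values in a cell -/
theorem cell (hn : 1 ≤ n) {y : ℕ → ℝ[X]} (hy : Sol (bb n r e) (gb n r e) y) (c : ℕ) {i : ℕ}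
    (hi : i + 1 ≤ n) :
    y (c * (n + 1) + (i + 1)) = Sp (i + 1) * y (c * (n + 1) + 1)
      - Sp i * (C (Real.sqrt (1 - r * e)) * y (c * (n + 1))) ∧
    C (gb n r e (c * (n + 1) + (i + 1))) * y (c * (n + 1) + (i + 1) + 1) =
      Sp (i + 2) * y (c * (n + 1) + 1)
      - Sp (i + 1) * (C (Real.sqrt (1 - r * e)) * y (c * (n + 1))) := by
  constructor
  · rw [← hat_eq hn hy c i (by omega)]
    unfold hat
    rw [if_neg (by omega), if_neg (by omega)]
  · rw [← hat_eq hn hy c (i + 1) hi]
    unfold hat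
    rw [if_neg (by omega)]
    rcases Nat.lt_or_ge (i + 1) n with h | h
    · rw [if_neg (by omega), gb1 c (Nat.succ_pos i) h, C_1, one_mul]
      rfl
    · obtain rfl : n = i + 1 := by omega
      rw [if_pos rfl, gbn hn]
      rfl

theorem cell_end (hn : 1 ≤ n) {y : ℕ → ℝ[X]} (hy : Sol (bb n r e) (gb n r e) y) (c : ℕ) :
    C (Real.sqrt 2) * y (c * (n + 1) + (n + 1)) = Sp (n + 1) * y (c * (n + 1) + 1)
      - Sp n * (C (Real.sqrt (1 - r * e)) * y (c * (n + 1))) := by
  rw [← hat_eq hn hy c n le_rfl]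
  unfold hat
  rw [if_neg (by omega), if_pos rfl]

/-- the recurrence at the end of a cell -/
theorem cell_step (hn : 1 ≤ n) {y : ℕ → ℝ[X]} (hy : Sol (bb n r e) (gb n r e) y) (c : ℕ) :
    X * y ((c + 1) * (n + 1)) = C (Real.sqrt 2) * y (c * (n + 1) + n)
      + C (e - r) * y ((c + 1) * (n + 1))
      + C (Real.sqrt (1 - r * e)) * y ((c + 1) * (n + 1) + 1) := by
  have h := hy (c * (n + 1) + n)
  rw [gbn hn c, show c * (n + 1) + n + 1 = (c + 1) * (n + 1) by ring,
    show c * (n + 1) + n + 2 = (c + 1) * (n + 1) + 1 by ring, bb0, gb0] at h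
  exact h

/-- data in one cell evaluated at a node -/
theorem cell_eval (hn : 1 ≤ n) {y : ℕ → ℝ[X]} (hy : Sol (bb n r e) (gb n r e) y) (c : ℕ) {x : ℝ}
    (hx : (Sp (n + 1)).eval x = 0) :
    Real.sqrt 2 * (y ((c + 1) * (n + 1))).eval x =
      -((Sp n).eval x * (Real.sqrt (1 - r * e) * (y (c * (n + 1))).eval x)) ∧
    Real.sqrt (1 - r * e) * (y ((c + 1) * (n + 1) + 1)).eval x =
      (x - (e - r)) * (y ((c + 1) * (n + 1))).eval x
      - Real.sqrt 2 * ((Sp n).eval x * ((y (c * (n + 1) + 1)).eval x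
        - x * (Real.sqrt (1 - r * e) * (y (c * (n + 1))).eval x))) := by
  have h1 := congrArg (eval x) (cell_end hn hy c)
  have h2 := congrArg (eval x) (cell_step hn hy c)
  obtain ⟨N, rfl⟩ : ∃ N, n = N + 1 := ⟨n - 1, by omega⟩
  have h3 := congrArg (eval x) (cell hn hy c (i := N) le_rfl).1
  have h4 : (Sp (N + 2)).eval x = x * (Sp (N + 1)).eval x - (Sp N).eval x := by
    rw [Sp_rec, eval_sub, eval_mul, eval_X]
  rw [show N + 1 + 1 = N + 2 by omega] at *
  rw [hx] at h4
  simp only [eval_mul, eval_sub, eval_add, eval_C, eval_X, hx, zero_mul, zero_sub] at h1 h2 h3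
  rw [show c * (N + 2) + (N + 2) = (c + 1) * (N + 2) by ring] at h1
  refine ⟨h1, ?_⟩
  linear_combination -h2 - Real.sqrt 2 * h3
    + Real.sqrt 2 * Real.sqrt (1 - r * e) * (y (c * (N + 2))).eval x * h4

theorem eta_sq {x : ℝ} (hx : (Sp (n + 1)).eval x = 0) :
    (Sp n).eval x * (Sp n).eval x = 1 := by
  rcases Nat.eq_zero_or_pos n with rfl | hn
  · simp [Sp] at hx
  · obtain ⟨N, rfl⟩ : ∃ N, n = N + 1 := ⟨n - 1, by omega⟩
    have := congrArg (eval x) (Sp_cas N)
    rw [show N + 1 + 1 = N + 2 by omega] at hx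
    simp only [eval_mul, eval_sub, hx, mul_zero, sub_zero, eval_one] at this
    exact this

theorem pos_main (hn : 1 ≤ n) (hr0 : 0 < r) (hr1 : r < 1) (he : e = 0 ∨ e = 1) (c i : ℕ)
    (hi : i ≤ n) {R t : ℕ → ℝ[X]}
    (D : Data n (c * (n + 1) + i) (bb n r e) (gb n r e) r e R t) {x : ℝ}
    (hx : (Sp (n + 1)).eval x = 0) (hx2 : -2 < x)
    (hr : (Sp (i + 1)).eval x ≠ r * (Sp i).eval x) :
    0 < Real.sqrt 2 * (1 + r * e) + Real.sqrt (1 - r * e) * (Sp n).eval x *
      ((R (c * (n + 1) + i + (n + 1))).eval x + e * (gb n r e (c * (n + 1) + i) *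
        (R (c * (n + 1) + i + 1 + (n + 1))).eval x)) := by
  have hw : Real.sqrt 2 * Real.sqrt 2 = 2 := Real.mul_self_sqrt (by norm_num)
  have hw0 : 0 < Real.sqrt 2 := Real.sqrt_pos.2 (by norm_num)
  have hre : 0 < 1 - r * e := by rcases he with rfl | rfl <;> linarith
  have hs : Real.sqrt (1 - r * e) * Real.sqrt (1 - r * e) = 1 - r * e := Real.mul_self_sqrt hre.le
  have hη := eta_sq hx
  obtain ⟨a1, a2⟩ := cell_eval hn D.solR c hx
  set w := Real.sqrt 2 with hwd
  set s := Real.sqrt (1 - r * e) with hsd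
  set η := (Sp n).eval x with hηd
  set yg := (R ((c + 1) * (n + 1))).eval x with hyg
  set A := (R (c * (n + 1) + 1)).eval x with hA
  set A' := (R ((c + 1) * (n + 1) + 1)).eval x with hA'
  rcases Nat.eq_zero_or_pos i with rfl | hi0
  · -- `i = 0`
    have b1 := congrArg (eval x) D.Rh
    have b2 := congrArg (eval x) D.Rh1
    rw [add_zero] at b1 b2
    rw [gb0] at b2
    simp only [eval_mul, eval_C, eval_one] at b1 b2
    rw [← hsd, ← hA] at b2
    rw [b1] at a1 a2
    rw [add_zero, gb0, show c * (n + 1) + (n + 1) = (c + 1) * (n + 1) by ring,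
      show c * (n + 1) + 1 + (n + 1) = (c + 1) * (n + 1) + 1 by ring, ← hyg, ← hA', ← hsd]
    have key : w * (w * (1 + r * e) + s * η * (yg + e * (s * A'))) =
        2 * (1 + r * e) - (1 - r * e) * (1 + e * (x - e + r) - 2 * e * x) - 2 * e * r := by
      rw [a2]
      linear_combination (1 + r * e) * hw + (s * η * (1 + e * (x - (e - r)))) * a1
        - s * η * η * e * (A - x * (s * 1)) * hw - s * s * (1 + e * (x - (e - r))) * hη
        - 2 * e * s * (A - x * s) * hη + (2 * x * e - 1 - e * (x - (e - r))) * hs - 2 * e * b2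
    have hpos : 0 < 2 * (1 + r * e) - (1 - r * e) * (1 + e * (x - e + r) - 2 * e * x)
        - 2 * e * r := by
      rcases he with rfl | rfl
      · norm_num
      · nlinarith [mul_pos (sub_pos.2 hr1) (by linarith : 0 < x + 2), mul_pos hr0 hr0]
    rw [← key] at hpos
    exact pos_of_mul_pos_right hpos hw0.le |> fun h => h
  · obtain ⟨j, rfl⟩ : ∃ j, i = j + 1 := ⟨i - 1, by omega⟩
    obtain ⟨c1, c2⟩ := cell hn D.solR c (i := j) hi
    obtain ⟨c3, c4⟩ := cell hn D.solR (c + 1) (i := j) hi
    rw [D.Rh] at c1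
    rw [D.Rh1] at c2
    have c1 := congrArg (eval x) c1
    have c2 := congrArg (eval x) c2
    have c3 := congrArg (eval x) c3
    have c4 := congrArg (eval x) c4
    have hrec := congrArg (eval x) (Sp_rec j)
    have hcas := congrArg (eval x) (Sp_cas j)
    simp only [eval_mul, eval_sub, eval_C, eval_one, eval_X] at c1 c2 c3 c4 hrec hcas
    rw [show (c + 1) * (n + 1) + (j + 1) = c * (n + 1) + (j + 1) + (n + 1) by ring] at c3 c4
    rw [show c * (n + 1) + (j + 1) + (n + 1) + 1 = c * (n + 1) + (j + 1) + 1 + (n + 1) by ring,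
      gb_per] at c4
    rw [c3, c4]
    rw [← hsd, ← hA'] at *
    rw [← hyg] at *
    rw [← hA] at c1 c2
    rw [show j + 1 + 1 = j + 2 by omega] at hr
    set p' := (Sp j).eval x with hp'
    set p := (Sp (j + 1)).eval x with hp
    set q := (Sp (j + 2)).eval x with hq
    set B := s * (R (c * (n + 1))).eval x with hB
    have hAe : A = p - r * p' := by
      linear_combination -p * c1 + p' * c2 - A * hcas
    have hBe : B = q - r * p := by
      linear_combination -q * c1 + p * c2 - B * hcas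
    have key : w * (w * (1 + r * e) + s * η * (p * A' - p' * (s * yg) +
        e * (q * A' - p * (s * yg)))) =
        2 * (1 + r * e) + (p + e * q) * (-(x - (e - r)) * B - 2 * (A - x * B))
          + (p' + e * p) * (1 - r * e) * B := by
      linear_combination (1 + r * e) * hw + w * η * (p + e * q) * a2
        + η * (p + e * q) * (x - (e - r)) * a1 - η * η * (p + e * q) * (A - x * B) * hw
        - ((p + e * q) * ((x - (e - r)) * B + 2 * (A - x * B))) * hη
        - η * s * s * (p' + e * p) * a1 + (p' + e * p) * B * s * s * hη + (p' + e * p) * B * hs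
    have key2 : 2 * (1 + r * e) + (p + e * q) * (-(x - (e - r)) * B - 2 * (A - x * B))
          + (p' + e * p) * (1 - r * e) * B = (1 + e * x + e * e) * B ^ 2 := by
      rw [hAe, hBe]
      rcases he with rfl | rfl
      · linear_combination -(q - r * p) * hrec - 2 * hcas
      · linear_combination -(1 + r) * (q - r * p) * hrec - 2 * (1 + r) * hcas
    have hB0 : B ≠ 0 := by
      rw [hBe]
      intro h
      exact hr (by linarith)
    have hpos : 0 < (1 + e * x + e * e) * B ^ 2 := by
      refine mul_pos ?_ (by positivity)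
      rcases he with rfl | rfl
      · norm_num
      · linarith
    rw [← key2, ← key] at hpos
    exact pos_of_mul_pos_right hpos hw0.le |> fun h => h

end

end Pool.Agent.NH79.Tad
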