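import Pool.Agent.NH79.Tad.Pos

/-! The complete set of data for the construction. -/

set_option autoImplicit false

open Polynomial

namespace Pool.Agent.NH79.Tad

theorem prod_per {n : ℕ} {γ : ℕ → ℝ} (hγ : ∀ j, γ j ≠ 0) (pγ : ∀ j, γ (j + (n + 1)) = γ j) (j : ℕ) :
    ∏ k ∈ Finset.range (n + 1), γ (j + k) = ∏ k ∈ Finset.range (n + 1), γ k := by
  induction j with
  | zero => simp
  | succ j ih =>
    rw [← ih]
    have h1 := Finset.prod_range_succ (fun k => γ (j + k)) (n + 1)
    have h2 := Finset.prod_range_succ' (fun k => γ (j + k)) (n + 1)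
    rw [h1] at h2
    simp only [add_zero, pγ] at h2
    have h3 := mul_right_cancel₀ (hγ j) h2
    rw [h3]
    refine Finset.prod_congr rfl fun k _ => ?_
    congr 1
    omega

section
variable {n h : ℕ} {β γ : ℕ → ℝ} {r e : ℝ} {R t : ℕ → ℝ[X]}

theorem Data.mulQ (D : Data n h β γ r e R t) : C (1 + r * e) * QQ n h γ r e R =
    R (h + (n + 1)) + C e * (C (γ h) * R (h + 1 + (n + 1))) := by
  unfold QQ
  rw [← mul_assoc, ← C_mul, mul_inv_cancel₀ D.ne, C_1, one_mul]

theorem Data.degW (D : Data n h β γ r e R t) :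
    (X * ss β γ (n + 1) - C ((1 + r * e) * γ 0) * ff n h β γ r e R 1).natDegree ≤ n ∧
    (ss β γ (n + 1)).coeff n ≠ 0 := by
  have hg : γ (n + 1) = γ 0 := by have := D.pγ 0; rwa [zero_add] at this
  have h1 := D.sols n
  rw [hg] at h1
  have eW : X * ss β γ (n + 1) - C ((1 + r * e) * γ 0) * ff n h β γ r e R 1 =
      C (-(r * e)) * (X * ss β γ (n + 1)) + C ((1 + r * e) * γ n) * ss β γ n
      + C ((1 + r * e) * β (n + 1)) * ss β γ (n + 1) + C (γ 0) * R (h + (n + 1))
      + C (e * γ 0 * γ h) * R (h + 1 + (n + 1)) := by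
    have h2 := D.mulQ
    unfold ff
    rw [ss_one, show 1 + (n + 1) = n + 2 by omega, C_mul, C_mul, C_mul, C_mul, C_mul, C_neg]
    simp only [C_mul, C_add, C_1] at h2 ⊢
    linear_combination (1 + C r * C e) * h1 + C (γ 0) * h2
  obtain ⟨d1, d2⟩ := D.degs
  obtain ⟨d3, d4, d5, d6, d7⟩ := D.degR
  have d0 : (ss β γ n).natDegree ≤ n := by
    have := (D.sols.deg_up D.hγ (i := 0) (by rw [ss_zero, natDegree_zero])
      (by rw [zero_add, ss_one, natDegree_one]) n).1
    rwa [zero_add] at this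
  have k1 := (D.sols.deg_up D.hγ (i := 0) (by rw [ss_zero, natDegree_zero])
      (by rw [zero_add, ss_one, natDegree_one]) n).2.2
  rw [show 0 + 1 + n = n + 1 by omega, zero_add, ss_one, coeff_one_zero] at k1
  have k2 := (D.solR.deg_up D.hγ d6 d7 (n + 1)).2.2
  have k3 : γ h * (R (h + 1)).coeff 0 = r := by
    have := congrArg (fun p => coeff p 0) D.Rh1
    simpa [coeff_C_mul] using this
  have k4 := prod_per D.hγ D.pγ (h + 1)
  rw [k4, Finset.prod_range_succ'] at k2
  have k5 : ∏ k ∈ Finset.range n, γ (k + 1) = ∏ k ∈ Finset.range n, γ (1 + k) :=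
    Finset.prod_congr rfl fun k _ => by rw [add_comm]
  rw [k5] at k2
  set P := ∏ k ∈ Finset.range n, γ (1 + k) with hP
  have hP0 : P ≠ 0 := by
    intro h0
    rw [h0, mul_zero] at k1
    exact zero_ne_one k1
  refine ⟨?_, fun h0 => by rw [h0, zero_mul] at k1; exact zero_ne_one k1⟩
  rw [natDegree_le_iff_coeff_eq_zero]
  intro N hN
  rw [eW]
  simp only [coeff_add, coeff_C_mul]
  obtain ⟨m, rfl⟩ : ∃ m, N = m + 1 := ⟨N - 1, by omega⟩
  rw [coeff_X_mul, coeff_eq_zero_of_natDegree_lt (lt_of_le_of_lt d0 hN),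
    coeff_eq_zero_of_natDegree_lt (lt_of_le_of_lt d1 hN),
    coeff_eq_zero_of_natDegree_lt (lt_of_le_of_lt d3 hN)]
  rcases Nat.lt_or_ge n m with hm | hm
  · rw [coeff_eq_zero_of_natDegree_lt (lt_of_le_of_lt d1 hm),
      coeff_eq_zero_of_natDegree_lt (lt_of_le_of_lt d4 (by omega))]
    ring
  · obtain rfl : m = n := by omega
    have k6 : P * (-(r * e) * (ss β γ (m + 1)).coeff m + (1 + r * e) * γ m * 0
      + (1 + r * e) * β (m + 1) * 0 + γ 0 * 0 + e * γ 0 * γ h *
        (R (h + 1 + (m + 1))).coeff (m + 1)) = 0 := by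
      linear_combination -(r * e) * k1 + e * γ h * k2 + e * k3
    exact (mul_eq_zero.1 k6).resolve_left hP0

end

/-- all data of the construction -/
theorem exists_setup {n : ℕ} (hn : 1 ≤ n) (h : ℕ) {e : ℝ} (he : e = 0 ∨ e = 1) :
    ∃ (β γ : ℕ → ℝ) (r : ℝ) (R t : ℕ → ℝ[X]) (_ : Data n h β γ r e R t)
      (βT γT : ℕ → ℝ) (l : ℕ → ℝ[X]) (v : ℝ), 0 < 1 + r * e ∧
      (∀ p, γT p ≠ 0) ∧ l 0 = 0 ∧ l (n + 1) = ss β γ (n + 1) ∧
      C (γT n) * l n = X * ss β γ (n + 1) - C v * ss β γ (n + 1)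
        - C ((1 + r * e) * γ 0) * ff n h β γ r e R 1 ∧ l 1 ≠ 0 ∧
      (∀ p, p < n → X * l (p + 1) = C (γT p) * l p + C (βT (p + 1)) * l (p + 1)
        + C (γT (p + 1)) * l (p + 2)) ∧
      (∀ p, p ≤ n + 1 → (l p).natDegree ≤ p - 1) := by
  classical
  set i := h % (n + 1) with hi
  set c := h / (n + 1) with hc
  have hh : h = c * (n + 1) + i := by
    rw [hi, hc, mul_comm]; exact (Nat.div_add_mod h (n + 1)).symm
  have hin : i ≤ n := Nat.lt_succ_iff.1 (Nat.mod_lt h (Nat.succ_pos n))
  -- choice of `r`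
  obtain ⟨r, ⟨hr0, hr1⟩, hrb⟩ := (Set.Ioo_infinite (show (0 : ℝ) < 1 by norm_num)).exists_notMem_finset
    ((Finset.range n).image fun k => (Sp (i + 1)).eval (th n k) / (Sp i).eval (th n k))
  have hr : ∀ k ∈ Finset.range n, (Sp (i + 1)).eval (th n k) ≠ r * (Sp i).eval (th n k) := by
    intro k hk heq
    have hcas := congrArg (eval (th n k)) (Sp_cas i)
    simp only [eval_mul, eval_sub, eval_one] at hcas
    rcases eq_or_ne ((Sp i).eval (th n k)) 0 with h0 | h0
    · rw [h0, mul_zero] at heq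
      rw [heq, h0] at hcas
      simp at hcas
    · refine hrb (Finset.mem_image.2 ⟨k, hk, ?_⟩)
      rw [heq]
      field_simp
  have hre : 0 < 1 - r * e := by rcases he with rfl | rfl <;> linarith
  have hre' : 0 < 1 + r * e := by rcases he with rfl | rfl <;> linarith
  have hγ : ∀ j, gb n r e j ≠ 0 := fun j => gb_ne (by linarith) j
  obtain ⟨R, R1, R2, R3⟩ := exists_sol (β := bb n r e) hγ h 1 (C ((gb n r e h)⁻¹ * r))
  obtain ⟨t, t1, t2, t3⟩ := exists_sol (β := bb n r e) hγ h (C e) (C (-(gb n r e h)⁻¹))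
  have D : Data n h (bb n r e) (gb n r e) r e R t := by
    refine ⟨hγ, bb_per, gb_per, R1, t1, R2, ?_, t2, ?_, hre'.ne'⟩
    · rw [R3, ← C_mul]; congr 1; have := hγ h; field_simp
    · rw [t3, ← C_mul, show gb n r e h * -(gb n r e h)⁻¹ = -1 by have := hγ h; field_simp]
      simp
  obtain ⟨w1, w2⟩ := D.degW
  set W := X * ss (bb n r e) (gb n r e) (n + 1)
    - C ((1 + r * e) * gb n r e 0) * ff n h (bb n r e) (gb n r e) r e R 1 with hW
  set sg := ss (bb n r e) (gb n r e) (n + 1) with hsg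
  set v := W.coeff n / sg.coeff n with hv
  have hsgd : sg.natDegree ≤ n := D.degs.1
  have hYd : (W - C v * sg).degree < n := by
    rw [degree_lt_iff_coeff_zero]
    intro m hm
    rw [coeff_sub, coeff_C_mul]
    rcases Nat.lt_or_ge n m with h1 | h1
    · rw [coeff_eq_zero_of_natDegree_lt (lt_of_le_of_lt w1 h1),
        coeff_eq_zero_of_natDegree_lt (lt_of_le_of_lt hsgd h1)]
      ring
    · obtain rfl : m = n := by omega
      rw [hv]
      field_simp
      ring
  have hw0 : 0 < Real.sqrt 2 := Real.sqrt_pos.2 (by norm_num)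
  have hsg2 : sg = C (Real.sqrt 2)⁻¹ * Lagrange.nodal (Finset.range n) (th n) := by
    have h1 := cell_end hn D.sols 0
    rw [zero_mul, zero_add, zero_add, ss_one, ss_zero, mul_zero, mul_zero, sub_zero, mul_one] at h1
    rw [← Sp_nodal, ← h1, ← mul_assoc, ← C_mul, inv_mul_cancel₀ hw0.ne', C_1, one_mul]
  have hg0 : gb n r e 0 = Real.sqrt (1 - r * e) := by
    have := gb0 (n := n) (r := r) (e := e) 0
    rwa [zero_mul] at this
  obtain ⟨βT, γT, l, i1, i2, i3, i4, i5, i6, i7⟩ := tail_nodes n (th n) (th_inj n)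
    (Real.sqrt 2)⁻¹ (inv_pos.2 hw0) (W - C v * sg) hYd (by
      intro k hk
      have hkn := Finset.mem_range.1 hk
      have hx := th_root hkn
      have hη := eta_sq hx
      have h1 := pos_main hn hr0 hr1 he c i hin (hh ▸ D) hx (th_gt hkn) (hr k hk)
      rw [← hh] at h1
      have h2 := congrArg (eval (th n k)) D.mulQ
      simp only [eval_mul, eval_add, eval_C] at h2
      have h3 := (cell_eval hn D.sols 0 hx).2
      simp only [zero_add, zero_mul, one_mul, ss_one, ss_zero, eval_one, eval_zero, mul_zero,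
        sub_zero, mul_one] at h3
      rw [← hsg] at h3
      have h4 : sg.eval (th n k) = 0 := by
        rw [hsg2, eval_C_mul, Lagrange.eval_nodal_at_node hk, mul_zero]
      have h5 : (W - C v * sg).eval (th n k) = -((1 + r * e) * (gb n r e 0 *
          (ff n h (bb n r e) (gb n r e) r e R 1).eval (th n k))) := by
        rw [hW]
        simp only [eval_sub, eval_mul, eval_C, eval_X, h4]
        ring
      have h6 : (Sp n).eval (th n k) * (W - C v * sg).eval (th n k) =
          Real.sqrt 2 * (1 + r * e) + Real.sqrt (1 - r * e) * (Sp n).eval (th n k) *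
          ((R (h + (n + 1))).eval (th n k) + e * (gb n r e h *
          (R (h + 1 + (n + 1))).eval (th n k))) := by
        rw [h5, ← h2, hg0]
        unfold ff
        rw [ss_one, show 1 + (n + 1) = n + 1 + 1 by omega]
        simp only [eval_sub, eval_mul, eval_one]
        rw [h4] at h3
        linear_combination -((Sp n).eval (th n k) * (1 + r * e)) * h3
          + Real.sqrt 2 * (1 + r * e) * hη
      have h7 : 0 < (Sp n).eval (th n k) * (derivative (C (Real.sqrt 2)⁻¹ *
          Lagrange.nodal (Finset.range n) (th n))).eval (th n k) := by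
        have h8 := congrArg (eval (th n k)) (Sp_cd n)
        simp only [eval_sub, eval_mul, hx, zero_mul, sub_zero, eval_finsetSum] at h8
        rw [derivative_C_mul, eval_C_mul, ← Sp_nodal]
        have h9 : 0 < ∑ j ∈ Finset.range (n + 1), (Sp j).eval (th n k) * (Sp j).eval (th n k) := by
          refine Finset.sum_pos' (fun j _ => mul_self_nonneg _) ⟨1, Finset.mem_range.2 (by omega), ?_⟩
          simp [Sp]
        rw [← h8] at h9
        have h10 := mul_pos (inv_pos.2 hw0) h9
        calc (0 : ℝ) < _ := h10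
          _ = _ := by ring
      rw [← h6] at h1
      have h11 := mul_pos h1 h7
      have h12 : ∀ a b c : ℝ, a * a = 1 → (a * b) * (a * c) = b * c := by
        intro a b c h; linear_combination b * c * h
      rwa [h12 _ _ _ hη] at h11)
  refine ⟨_, _, r, R, t, D, βT, γT, l, v, hre', i1, i2, ?_, ?_, i5, i6, i7⟩
  · rw [i3, ← hsg2]
  · rw [i4, hW]
    ring

end Pool.Agent.NH79.Tad
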