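import Mathlib

/-! Solutions of three term recurrences with polynomial values. -/

set_option autoImplicit false

open Polynomial

namespace Pool.Agent.NH79.Tad

/-- solutions of the three term recurrence with coefficients `β` (potentials) and `γ` (bonds) -/
def Sol (β γ : ℕ → ℝ) (y : ℕ → ℝ[X]) : Prop :=
  ∀ j, X * y (j + 1) = C (γ j) * y j + C (β (j + 1)) * y (j + 1) + C (γ (j + 1)) * y (j + 2)

variable {β γ : ℕ → ℝ} {y z : ℕ → ℝ[X]}

theorem Sol.comb (hy : Sol β γ y) (hz : Sol β γ z) (a b : ℝ[X]) :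
    Sol β γ (fun j => a * y j + b * z j) := by
  intro j
  have h1 := hy j
  have h2 := hz j
  simp only
  linear_combination a * h1 + b * h2

theorem Sol.shift (hy : Sol β γ y) {g : ℕ} (hβ : ∀ j, β (j + g) = β j) (hγ : ∀ j, γ (j + g) = γ j) :
    Sol β γ (fun j => y (j + g)) := by
  intro j
  have h1 := hy (j + g)
  rw [show j + g + 1 = j + 1 + g by omega, show j + g + 2 = j + 2 + g by omega, hβ, hγ, hγ] at h1
  exact h1

theorem Sol.zero0 (hγ : ∀ j, γ j ≠ 0) (hy : Sol β γ y) (h0 : y 0 = 0) (h1 : y 1 = 0) :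
    ∀ j, y j = 0 ∧ y (j + 1) = 0 := by
  intro j
  induction j with
  | zero => exact ⟨h0, h1⟩
  | succ j ih =>
    refine ⟨ih.2, ?_⟩
    have h := hy j
    rw [ih.1, ih.2] at h
    simp only [mul_zero, zero_add] at h
    rcases mul_eq_zero.1 h.symm with h' | h'
    · exact absurd (C_eq_zero.1 h') (hγ _)
    · exact h'

theorem Sol.back (hγ : ∀ j, γ j ≠ 0) (hy : Sol β γ y) :
    ∀ k, y k = 0 → y (k + 1) = 0 → y 0 = 0 ∧ y 1 = 0 := by
  intro k
  induction k with
  | zero => exact fun h h' => ⟨h, h'⟩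
  | succ k ih =>
    intro h h'
    refine ih ?_ h
    have h2 := hy k
    rw [h, show k + 2 = k + 1 + 1 by omega, h'] at h2
    simp only [mul_zero, add_zero] at h2
    rcases mul_eq_zero.1 h2.symm with h3 | h3
    · exact absurd (C_eq_zero.1 h3) (hγ _)
    · exact h3

theorem Sol.eq_zero (hγ : ∀ j, γ j ≠ 0) (hy : Sol β γ y) {k : ℕ} (h : y k = 0)
    (h' : y (k + 1) = 0) (j : ℕ) : y j = 0 := by
  obtain ⟨h0, h1⟩ := hy.back hγ k h h'
  exact (hy.zero0 hγ h0 h1 j).1

/-- two solutions agreeing at two consecutive places are equal -/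
theorem Sol.unique (hγ : ∀ j, γ j ≠ 0) (hy : Sol β γ y) (hz : Sol β γ z) {k : ℕ} (h : y k = z k)
    (h' : y (k + 1) = z (k + 1)) (j : ℕ) : y j = z j := by
  have := (hy.comb hz 1 (-1)).eq_zero hγ (k := k) (by simp [h]) (by simp [h']) j
  linear_combination this

/-- the Casoratian is constant -/
theorem Sol.cas (hy : Sol β γ y) (hz : Sol β γ z) (j : ℕ) :
    C (γ j) * (y (j + 1) * z j - y j * z (j + 1)) = C (γ 0) * (y 1 * z 0 - y 0 * z 1) := by
  induction j with
  | zero => rfl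
  | succ j ih =>
    rw [← ih]
    have h1 := hy j
    have h2 := hz j
    linear_combination -(z (j + 1)) * h1 + y (j + 1) * h2

/-- the solution with given values at `0, 1` -/
noncomputable def fwd (β γ : ℕ → ℝ) (a b : ℝ[X]) : ℕ → ℝ[X]
  | 0 => a
  | 1 => b
  | (j + 2) => C (γ (j + 1))⁻¹ * (X * fwd β γ a b (j + 1) - C (β (j + 1)) * fwd β γ a b (j + 1)
      - C (γ j) * fwd β γ a b j)

theorem fwd_sol (hγ : ∀ j, γ j ≠ 0) (a b : ℝ[X]) : Sol β γ (fwd β γ a b) := by
  intro j
  rw [fwd]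
  have h : C (γ (j + 1)) * C (γ (j + 1))⁻¹ = (1 : ℝ[X]) := by
    rw [← C_mul, mul_inv_cancel₀ (hγ _), C_1]
  linear_combination -(X * fwd β γ a b (j + 1) - C (β (j + 1)) * fwd β γ a b (j + 1)
      - C (γ j) * fwd β γ a b j) * h

/-- existence of solutions with given values at two consecutive places -/
theorem exists_sol (hγ : ∀ j, γ j ≠ 0) (k : ℕ) (a b : ℝ[X]) :
    ∃ y, Sol β γ y ∧ y k = a ∧ y (k + 1) = b := by
  set s := fwd β γ 0 1 with hs
  set c := fwd β γ 1 0 with hc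
  have h1 : Sol β γ s := fwd_sol hγ _ _
  have h2 : Sol β γ c := fwd_sol hγ _ _
  have h3 := h1.cas h2 k
  have e : s 1 * c 0 - s 0 * c 1 = 1 := by simp [hs, hc, fwd]
  rw [e, mul_one] at h3
  have h4 : C (γ k / γ 0) * (s (k + 1) * c k - s k * c (k + 1)) = 1 := by
    have : C (γ k / γ 0) = C (γ 0)⁻¹ * C (γ k) := by
      rw [← C_mul]; congr 1; ring
    rw [this, mul_assoc, h3, ← C_mul, inv_mul_cancel₀ (hγ 0), C_1]
  refine ⟨_, h1.comb h2 (C (γ k / γ 0) * (b * c k - a * c (k + 1)))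
    (C (γ k / γ 0) * (a * s (k + 1) - b * s k)), ?_, ?_⟩
  · linear_combination a * h4
  · linear_combination b * h4

/-- degrees of solutions going up -/
theorem Sol.deg_up (hγ : ∀ j, γ j ≠ 0) (hy : Sol β γ y) {i : ℕ} (h0 : (y i).natDegree = 0)
    (h1 : (y (i + 1)).natDegree = 0) (d : ℕ) :
    (y (i + d)).natDegree ≤ d ∧ (y (i + 1 + d)).natDegree ≤ d ∧
      (y (i + 1 + d)).coeff d * ∏ k ∈ Finset.range d, γ (i + 1 + k) = (y (i + 1)).coeff 0 := by
  induction d with
  | zero => simp [h0, h1]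
  | succ d ih =>
    obtain ⟨a1, a2, a3⟩ := ih
    have h := hy (i + d)
    have e : y (i + 1 + (d + 1)) = C (γ (i + 1 + d))⁻¹ * (X * y (i + 1 + d)
        - C (β (i + 1 + d)) * y (i + 1 + d) - C (γ (i + d)) * y (i + d)) := by
      have h' : C (γ (i + 1 + d)) * C (γ (i + 1 + d))⁻¹ = (1 : ℝ[X]) := by
        rw [← C_mul, mul_inv_cancel₀ (hγ _), C_1]
      rw [show i + d + 1 = i + 1 + d by omega, show i + d + 2 = i + 1 + (d + 1) by omega] at h
      linear_combination C (γ (i + 1 + d))⁻¹ * (-h) - y (i + 1 + (d + 1)) * h'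
    have a1' : (y (i + (d + 1))).natDegree ≤ d + 1 := by
      rw [show i + (d + 1) = i + 1 + d by omega]; omega
    have b1 : (X * y (i + 1 + d)).natDegree ≤ d + 1 := by
      refine natDegree_mul_le.trans ?_
      rw [natDegree_X]; omega
    have b2 : (C (β (i + 1 + d)) * y (i + 1 + d)).natDegree ≤ d :=
      (natDegree_C_mul_le _ _).trans a2
    have b3 : (C (γ (i + d)) * y (i + d)).natDegree ≤ d :=
      (natDegree_C_mul_le _ _).trans a1
    refine ⟨a1', ?_, ?_⟩
    · rw [e]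
      refine (natDegree_C_mul_le _ _).trans ?_
      refine (natDegree_sub_le _ _).trans (max_le ((natDegree_sub_le _ _).trans
        (max_le b1 (b2.trans (by omega)))) (b3.trans (by omega)))
    · rw [Finset.prod_range_succ, e, coeff_C_mul, coeff_sub, coeff_sub, coeff_X_mul,
        coeff_eq_zero_of_natDegree_lt (lt_of_le_of_lt b2 (Nat.lt_succ_self d)),
        coeff_eq_zero_of_natDegree_lt (lt_of_le_of_lt b3 (Nat.lt_succ_self d)), ← a3]
      have := hγ (i + 1 + d)
      field_simp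
      ring

end Pool.Agent.NH79.Tad
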